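import Pool.Agent.Run7.h245.EI.Main

/-!
# Isolation of compact orbits with an explicit rate
-/

set_option autoImplicit false
set_option linter.all false

open Matrix H715R2 Finset

namespace Pool.Agent.Run7.h245.EI

variable {d : ℕ}

/-- Outside `D y` the distance to `D y` is positive. -/
theorem dist_pos {g y : Matrix (Fin d) (Fin d) ℝ} (hy : y.det ≠ 0) {B : ℝ} (hB : 1 ≤ B)
    (hyB : ∀ k l, |y k l| ≤ B) (hne : ¬ ∃ b : Fin d → ℝ, g = diagonal b * y) :
    ∃ m : ℝ, 0 < m ∧ ∀ a : Fin d → ℝ, ∃ k l, m ≤ |g k l - a k * y k l| := by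
  have hB0 : (0 : ℝ) < B := by linarith
  have hrow : ∃ k l₁ l₂, g k l₁ * y k l₂ - g k l₂ * y k l₁ ≠ 0 := by
    by_contra hcon
    push Not at hcon
    apply hne
    have hyr : ∀ k, ∃ l, y k l ≠ 0 := by
      intro k
      by_contra h0
      push Not at h0
      exact hy (det_eq_zero_of_row_eq_zero k h0)
    choose l₀ hl₀ using hyr
    refine ⟨fun k => g k (l₀ k) / y k (l₀ k), ?_⟩
    ext k l
    rw [diagonal_mul]
    have h1 := hcon k l (l₀ k)
    have h2 := hl₀ k
    rw [div_mul_eq_mul_div, eq_div_iff h2]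
    linarith
  obtain ⟨k, l₁, l₂, hkl⟩ := hrow
  set D := |g k l₁ * y k l₂ - g k l₂ * y k l₁| with hD
  have hDpos : 0 < D := abs_pos.2 hkl
  refine ⟨D / (2 * B), by positivity, fun a => ?_⟩
  by_contra hcon
  push Not at hcon
  have h1 := hcon k l₁
  have h2 := hcon k l₂
  have h3 : D ≤ |g k l₁ - a k * y k l₁| * B + |g k l₂ - a k * y k l₂| * B := by
    rw [hD]
    have h4 : g k l₁ * y k l₂ - g k l₂ * y k l₁ =
        (g k l₁ - a k * y k l₁) * y k l₂ - (g k l₂ - a k * y k l₂) * y k l₁ := by ring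
    rw [h4]
    refine (abs_sub _ _).trans ?_
    rw [abs_mul, abs_mul]
    exact add_le_add (mul_le_mul_of_nonneg_left (hyB k l₂) (abs_nonneg _))
      (mul_le_mul_of_nonneg_left (hyB k l₁) (abs_nonneg _))
  have h5 : |g k l₁ - a k * y k l₁| * B + |g k l₂ - a k * y k l₂| * B <
      D / (2 * B) * B + D / (2 * B) * B :=
    add_lt_add (mul_lt_mul_of_pos_right h1 hB0) (mul_lt_mul_of_pos_right h2 hB0)
  have h6 : D / (2 * B) * B + D / (2 * B) * B = D := by
    field_simp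
    ring
  linarith

/-- The values of `diag (a) g γ`. -/
theorem FF_move {g : Matrix (Fin d) (Fin d) ℝ} (a : Fin d → ℝ) (γ : Matrix (Fin d) (Fin d) ℤ)
    (p : Fin d → ℤ) : FF (diagonal a * g * zR γ) (iR p) = (∏ i, a i) * FF g (iR (γ *ᵥ p)) := by
  have h1 : zR γ *ᵥ iR p = iR (γ *ᵥ p) := by
    funext i
    simp only [mulVec, dotProduct, iR, zR, map_apply]
    push_cast
    rfl
  rw [FF, FF, ← Finset.prod_mul_distrib]
  apply Finset.prod_congr rfl
  intro i _
  have h2 : ∑ j, (diagonal a * g * zR γ) i j * iR p j =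
      ((diagonal a * g * zR γ) *ᵥ iR p) i := rfl
  have h3 : ∑ j, g i j * iR (γ *ᵥ p) j = (g *ᵥ iR (γ *ᵥ p)) i := rfl
  rw [h2, h3, ← mulVec_mulVec, h1, ← mulVec_mulVec, mulVec_diagonal]

end Pool.Agent.Run7.h245.EI
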