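import Pool.Agent.Run7.h245.EI.Tune

/-!
# Values of products of linear forms near a matrix with many units
-/

set_option autoImplicit false
set_option linter.all false

open Matrix H715R2 Finset

namespace Pool.Agent.Run7.h245.EI

variable {d : ℕ}

theorem prod_diff {ι : Type} (s : Finset ι) (b E : ι → ℝ) {K e : ℝ} (hK : 1 ≤ K) (he : 0 ≤ e)
    (h1 : ∀ k ∈ s, |b k| ≤ K) (h2 : ∀ k ∈ s, |b k + E k| ≤ K) (h3 : ∀ k ∈ s, |E k| ≤ e) :
    |∏ k ∈ s, (b k + E k) - ∏ k ∈ s, b k| ≤ s.card * e * K ^ s.card := by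
  classical
  induction s using Finset.induction_on with
  | empty => simp
  | insert a s ha ih =>
    have ih' := ih (fun k hk => h1 k (mem_insert_of_mem hk)) (fun k hk => h2 k (mem_insert_of_mem hk))
      (fun k hk => h3 k (mem_insert_of_mem hk))
    rw [prod_insert ha, prod_insert ha, card_insert_of_notMem ha]
    have e1 : (b a + E a) * ∏ k ∈ s, (b k + E k) - b a * ∏ k ∈ s, b k =
        (b a + E a) * (∏ k ∈ s, (b k + E k) - ∏ k ∈ s, b k) + E a * ∏ k ∈ s, b k := by ring
    rw [e1]
    have e2 : |∏ k ∈ s, b k| ≤ K ^ s.card := by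
      rw [Finset.abs_prod, ← Finset.prod_const]
      exact Finset.prod_le_prod (fun _ _ => abs_nonneg _) fun k hk => h1 k (mem_insert_of_mem hk)
    have e3 : (0 : ℝ) ≤ K ^ s.card := by positivity
    calc |(b a + E a) * (∏ k ∈ s, (b k + E k) - ∏ k ∈ s, b k) + E a * ∏ k ∈ s, b k|
        ≤ |b a + E a| * |∏ k ∈ s, (b k + E k) - ∏ k ∈ s, b k| + |E a| * |∏ k ∈ s, b k| := by
          refine (abs_add_le _ _).trans (le_of_eq ?_)
          rw [abs_mul, abs_mul]
      _ ≤ K * (s.card * e * K ^ s.card) + e * K ^ s.card := by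
          refine add_le_add ?_ ?_
          · exact mul_le_mul (h2 a (mem_insert_self _ _)) ih' (abs_nonneg _) (by positivity)
          · exact mul_le_mul (h3 a (mem_insert_self _ _)) e2 (abs_nonneg _) he
      _ ≤ K * (s.card * e * K ^ s.card) + K * (e * K ^ s.card) := by
          have : e * K ^ s.card ≤ K * (e * K ^ s.card) :=
            le_mul_of_one_le_left (by positivity) hK
          linarith
      _ = ((s.card + 1 : ℕ) : ℝ) * e * K ^ (s.card + 1) := by
          push_cast
          ring

/-- A bounded integer point at which the linear forms have almost prescribed values. -/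
theorem exists_point {y : Matrix (Fin d) (Fin d) ℝ} (hy : y.det ≠ 0) {B : ℝ}
    (hB : ∀ k l, |y k l| ≤ B) (t : Fin d → ℝ) :
    ∃ p : Fin d → ℤ, ∀ k, |(y *ᵥ iR p) k - t k| ≤ d * B / 2 := by
  have hyu : IsUnit y.det := isUnit_iff_ne_zero.2 hy
  set z := y⁻¹ *ᵥ t with hz
  refine ⟨fun k => round (z k), fun k => ?_⟩
  have e : (y *ᵥ iR fun k => round (z k)) k - t k = ∑ l, y k l * ((round (z l) : ℝ) - z l) := by
    have h1 : t k = (y *ᵥ z) k := by
      rw [hz, mulVec_mulVec, Matrix.mul_nonsing_inv _ hyu, one_mulVec]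
    rw [h1]
    simp only [mulVec, dotProduct, iR]
    rw [← Finset.sum_sub_distrib]
    exact Finset.sum_congr rfl fun l _ => by ring
  rw [e]
  calc |∑ l, y k l * ((round (z l) : ℝ) - z l)| ≤ ∑ l, |y k l * ((round (z l) : ℝ) - z l)| :=
        Finset.abs_sum_le_sum_abs _ _
    _ ≤ ∑ l : Fin d, B * (1 / 2) := by
        refine Finset.sum_le_sum fun l _ => ?_
        rw [abs_mul]
        refine mul_le_mul (hB k l) ?_ (abs_nonneg _) ((abs_nonneg _).trans (hB k l))
        rw [abs_sub_comm]
        exact abs_sub_round _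
    _ = d * B / 2 := by
        rw [Finset.sum_const, Finset.card_univ, Fintype.card_fin, nsmul_eq_mul]
        ring

/-- The action of `γ`. -/
theorem value_act {y X : Matrix (Fin d) (Fin d) ℝ} (hy : y.det ≠ 0) {v : Fin d → ℝ}
    (hv : v ∈ LS y) {γ : Matrix (Fin d) (Fin d) ℤ}
    (hγ : y * zR γ = diagonal (fun k => Real.exp (v k)) * y) (p : Fin d → ℤ) :
    FF ((1 + X) * y) (iR (γ *ᵥ p)) =
      ∏ k, ((y *ᵥ iR p) k + ∑ l, X k l * Real.exp (v l - v k) * (y *ᵥ iR p) l) := by
  set a := y *ᵥ iR p with ha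
  have h1 : y *ᵥ iR (γ *ᵥ p) = fun k => Real.exp (v k) * a k := by
    rw [← zR_mulVec_iR, mulVec_mulVec, hγ, ← mulVec_mulVec, ← ha]
    funext k
    rw [mulVec_diagonal]
  have h2 : ∀ k, (((1 + X) * y) *ᵥ iR (γ *ᵥ p)) k =
      Real.exp (v k) * (a k + ∑ l, X k l * Real.exp (v l - v k) * a l) := by
    intro k
    rw [← mulVec_mulVec, h1, Matrix.add_mulVec, one_mulVec, Pi.add_apply, mul_add, Finset.mul_sum]
    congr 1
    simp only [mulVec, dotProduct]
    refine Finset.sum_congr rfl fun l _ => ?_
    have : Real.exp (v l) = Real.exp (v k) * Real.exp (v l - v k) := by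
      rw [← Real.exp_add]; congr 1; ring
    rw [this]
    ring
  rw [FF_eq, Finset.prod_congr rfl fun k _ => h2 k, Finset.prod_mul_distrib, ← Real.exp_sum,
    sum_zero hy hv, Real.exp_zero, one_mul]

/-- The estimate for a matrix `(1 + X) y` with `X` small and without diagonal. -/
theorem core (d : ℕ) (hd : 3 ≤ d) (B : ℝ) (hB1 : 1 ≤ B) : ∃ C : ℝ, 1 ≤ C ∧
    ∀ (R : ℝ) (y : Matrix (Fin d) (Fin d) ℝ) (u : Fin (d - 1) → Fin d → ℝ), 1 ≤ R →
      y.det ≠ 0 → (∀ k l, |y k l| ≤ B) → (∀ k l, |y⁻¹ k l| ≤ B) → Un y R u →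
    ∀ (X : Matrix (Fin d) (Fin d) ℝ) (T : ℝ) (i j : Fin d), (∀ k, X k k = 0) → i ≠ j →
      (∀ k l, |X k l| ≤ Real.exp (-T)) → |X i j| = Real.exp (-T) → Real.exp (C * R ^ 2) ≤ T →
    ∀ τ : ℝ, |τ| ≤ B → ∃ p : Fin d → ℤ, p ≠ 0 ∧ (∀ k, |(p k : ℝ)| ≤ Real.exp (3 / 4 * T)) ∧
      |FF ((1 + X) * y) (iR p) - τ| ≤ C * R ^ 2 / Real.log T := by
  have hd3 : (3 : ℝ) ≤ d := by exact_mod_cast hd
  have hd0 : 0 < d := by omega
  set M : ℝ := 2 * (d * B) with hM
  set C₄ : ℝ := 10 * (d : ℝ) ^ 2 + 20 with hC₄
  set K : ℝ := (8 + 2 * d) * M with hK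
  set C₇ : ℝ := d * ((6 + 2 * d) * M) * K ^ d with hC₇
  have hdB : 3 ≤ d * B := by nlinarith
  have hM6 : 6 ≤ M := by rw [hM]; linarith
  have hM0 : 0 < M := by linarith
  have hK1 : 1 ≤ K := by rw [hK]; nlinarith
  have hC₄1 : 1 ≤ C₄ := by rw [hC₄]; nlinarith
  have hC₇1 : 1 ≤ C₇ := by
    rw [hC₇]
    have h1 : (1 : ℝ) ≤ K ^ d := one_le_pow₀ hK1
    have h2 : (1 : ℝ) ≤ d * ((6 + 2 * d) * M) := by nlinarith
    nlinarith
  set C : ℝ := 2 * C₄ * C₇ + 256 + 16 * (2 + 2 * (d * B) * M) with hC
  have hCC₄ : 2 * C₄ ≤ C := by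
    have : 2 * C₄ * 1 ≤ 2 * C₄ * C₇ := mul_le_mul_of_nonneg_left hC₇1 (by linarith)
    have h2 : 0 ≤ 16 * (2 + 2 * (d * B) * M) := by positivity
    linarith
  have hCC₇ : 2 * C₄ * C₇ ≤ C := by
    have h2 : 0 ≤ 16 * (2 + 2 * (d * B) * M) := by positivity
    linarith
  have hC1 : 1 ≤ C := by linarith
  refine ⟨C, hC1, ?_⟩
  intro R y u hR hy hyB hyB' hu X T i j hX0 hij hXT hXij hT τ hτ
  have hyu : IsUnit y.det := isUnit_iff_ne_zero.2 hy
  -- the size of `T`
  have hR2 : 1 ≤ R ^ 2 := one_le_pow₀ hR
  have hTC : C ≤ T := by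
    have h1 : C ≤ C * R ^ 2 := le_mul_of_one_le_right (by linarith) hR2
    linarith [Real.add_one_le_exp (C * R ^ 2)]
  have hT256 : 256 ≤ T := by
    have h2 : 0 ≤ 16 * (2 + 2 * (d * B) * M) := by positivity
    have h3 : 0 ≤ 2 * C₄ * C₇ := by positivity
    linarith
  have hT0 : 0 < T := by linarith
  set Λ := Real.log T with hΛ
  have hΛC : C * R ^ 2 ≤ Λ := by
    rw [hΛ, Real.le_log_iff_exp_le hT0]
    exact hT
  have hΛ0 : 0 < Λ := lt_of_lt_of_le (by positivity) hΛC
  -- `ε`
  set ε : ℝ := 2 * C₄ * R ^ 2 / Λ with hε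
  have hε0 : 0 < ε := by positivity
  have hε1 : ε ≤ 1 := by
    rw [hε, div_le_one hΛ0]
    refine le_trans ?_ hΛC
    exact mul_le_mul_of_nonneg_right hCC₄ (by positivity)
  have hsq : Real.exp (C₄ * (R ^ 2 / ε)) ≤ T / 16 := by
    have h1 : C₄ * (R ^ 2 / ε) = Λ / 2 := by
      rw [hε]
      field_simp
    rw [h1, hΛ]
    have h2 : Real.exp (Real.log T / 2) ^ 2 = T := by
      rw [← Real.exp_nat_mul]
      have : ((2 : ℕ) : ℝ) * (Real.log T / 2) = Real.log T := by push_cast; ring
      rw [this, Real.exp_log hT0]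
    set E := Real.exp (Real.log T / 2) with hE
    have hE0 : 0 < E := Real.exp_pos _
    have hE16 : 16 ≤ E := by
      by_contra hcon
      rw [not_le] at hcon
      nlinarith
    nlinarith
  have hexpT : Real.exp (-(T / 4)) ≤ ε := by
    have h1 : T ≤ Real.exp (T / 4) := by
      have h2 : Real.exp (T / 4) = Real.exp (T / 8) ^ 2 := by
        rw [← Real.exp_nat_mul]
        congr 1
        push_cast
        ring
      have h3 : T / 8 ≤ Real.exp (T / 8) := by linarith [Real.add_one_le_exp (T / 8)]
      rw [h2]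
      nlinarith
    have h2 : Λ ≤ T := by
      rw [hΛ]
      exact (Real.log_le_sub_one_of_pos hT0).trans (by linarith)
    have h3 : 1 / Λ ≤ ε := by
      rw [hε]
      apply div_le_div_of_nonneg_right _ hΛ0.le
      nlinarith
    have h4 : 1 / Real.exp (T / 4) ≤ 1 / Λ := one_div_le_one_div_of_le hΛ0 (h2.trans h1)
    rw [Real.exp_neg, ← one_div]
    exact h4.trans h3
  -- the sign
  obtain ⟨sg, hsg, hXs⟩ : ∃ sg : ℝ, (sg = 1 ∨ sg = -1) ∧ X i j = sg * Real.exp (-T) := by
    rcases abs_choice (X i j) with h | h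
    · exact ⟨1, Or.inl rfl, by rw [← hXij, h, one_mul]⟩
    · exact ⟨-1, Or.inr rfl, by rw [← hXij, h]; ring⟩
  have hsg2 : sg * sg = 1 := by rcases hsg with h | h <;> rw [h] <;> norm_num
  -- the point
  obtain ⟨p₀, hp₀⟩ := exists_point hy hyB (fun k => if k = i then -sg * M else M)
  set a := y *ᵥ iR p₀ with ha
  have haM : (d : ℝ) * B / 2 = M / 4 := by rw [hM]; ring
  have hak : ∀ k, k ≠ i → M / 2 ≤ a k ∧ a k ≤ 2 * M := by
    intro k hk
    have h1 := hp₀ k
    rw [if_neg hk, haM] at h1
    rw [abs_le] at h1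
    constructor <;> linarith [h1.1, h1.2]
  have hai : M / 2 ≤ -sg * a i ∧ -sg * a i ≤ 2 * M := by
    have h1 := hp₀ i
    rw [if_pos rfl, haM, abs_le] at h1
    rcases hsg with h | h
    · rw [h] at h1 ⊢
      constructor <;> linarith [h1.1, h1.2]
    · rw [h] at h1 ⊢
      constructor <;> linarith [h1.1, h1.2]
  have habs : ∀ k, M / 2 ≤ |a k| ∧ |a k| ≤ 2 * M := by
    intro k
    by_cases hk : k = i
    · subst hk
      have e : |a k| = -sg * a k := by
        have h1 : |(-sg) * a k| = |a k| := by
          rw [abs_mul, abs_neg]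
          have : |sg| = 1 := by rcases hsg with h | h <;> rw [h] <;> norm_num
          rw [this, one_mul]
        rw [← h1, abs_of_nonneg (by linarith [hai.1])]
      rw [e]
      exact hai
    · rw [abs_of_nonneg (by linarith [(hak k hk).1])]
      exact hak k hk
  have hane : ∀ k, a k ≠ 0 := fun k h => by
    have := (habs k).1
    rw [h, abs_zero] at this
    linarith
  -- the product
  set Pr := ∏ k, a k with hPr
  have hPr1 : 2 * B ≤ |Pr| := by
    rw [hPr, Finset.abs_prod]
    have h1 : (M / 2) ^ d ≤ ∏ k : Fin d, |a k| := by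
      have := Finset.prod_le_prod (s := (Finset.univ : Finset (Fin d))) (f := fun _ => M / 2)
        (g := fun k => |a k|) (fun _ _ => by linarith) (fun k _ => (habs k).1)
      rwa [Finset.prod_const, Finset.card_univ, Fintype.card_fin] at this
    have h2 : M / 2 ≤ (M / 2) ^ d := le_self_pow₀ (by linarith) hd0.ne'
    have h3 : 2 * B ≤ M / 2 := by
      rw [hM]
      nlinarith
    linarith
  have hPr0 : Pr ≠ 0 := Finset.prod_ne_zero_iff.2 fun k _ => hane k
  set q := τ / Pr with hq
  have hq1 : |q| ≤ 1 / 2 := by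
    rw [hq, abs_div, div_le_iff₀ (abs_pos.2 hPr0)]
    linarith
  have hq2 := abs_le.1 hq1
  set x := Real.log (1 - q) with hx
  have hex : Real.exp x = 1 - q := Real.exp_log (by linarith [hq2.2])
  have hxb : |x| ≤ 1 := by
    rw [abs_le]
    constructor
    · rw [hx, Real.le_log_iff_exp_le (by linarith [hq2.2])]
      have h1 : Real.exp (-1) ≤ 1 / 2 := by
        rw [Real.exp_neg, inv_eq_one_div]
        exact one_div_le_one_div_of_le (by norm_num) (by linarith [Real.add_one_le_exp (1 : ℝ)])
      linarith [hq2.2]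
    · rw [hx, Real.log_le_iff_le_exp (by linarith [hq2.2])]
      linarith [Real.add_one_le_exp (1 : ℝ), hq2.1]
  -- the ratio
  have haj := hak j hij.symm
  have haj0 : 0 < a j := by linarith [haj.1]
  have hai0 : 0 < -sg * a i := by linarith [hai.1]
  set s := Real.log ((-sg * a i) / a j) with hs
  have hes : Real.exp s = (-sg * a i) / a j := Real.exp_log (div_pos hai0 haj0)
  have hsb : |s| ≤ 3 / 2 := by
    have h4 : (4 : ℝ) ≤ Real.exp (3 / 2) := by
      have h5 : (2 : ℝ) ≤ Real.exp (3 / 4) := by
        have h6 : Real.exp (3 / 4) = Real.exp (1 / 4) ^ 3 := by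
          rw [← Real.exp_nat_mul]; norm_num
        have h7 : (5 : ℝ) / 4 ≤ Real.exp (1 / 4) := by linarith [Real.add_one_le_exp (1 / 4 : ℝ)]
        have h8 : (32 : ℝ) / 25 ≤ Real.exp (1 / 4) := by
          have := Real.quadratic_le_exp_of_nonneg (x := 1 / 4) (by norm_num)
          linarith
        rw [h6]
        calc (2 : ℝ) ≤ (32 / 25) ^ 3 := by norm_num
          _ ≤ _ := pow_le_pow_left₀ (by norm_num) h8 3
      have h6 : Real.exp (3 / 2) = Real.exp (3 / 4) ^ 2 := by
        rw [← Real.exp_nat_mul]; norm_num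
      rw [h6]
      nlinarith
    have h1 : (-sg * a i) / a j ≤ 4 := by
      rw [div_le_iff₀ haj0]
      linarith [hai.2, haj.1]
    have h2 : 1 / 4 ≤ (-sg * a i) / a j := by
      rw [le_div_iff₀ haj0]
      linarith [hai.1, haj.2]
    rw [abs_le]
    constructor
    · rw [hs, Real.le_log_iff_exp_le (div_pos hai0 haj0), Real.exp_neg, inv_eq_one_div]
      refine le_trans ?_ h2
      exact one_div_le_one_div_of_le (by norm_num) h4
    · rw [hs, Real.log_le_iff_le_exp (div_pos hai0 haj0)]
      linarith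
  set ρ := T + s + x with hρ
  obtain ⟨v, hv, hvρ, hvt⟩ := tune hy hd hR hu hij hε0 hε1 ρ
  have hvt' : ∀ k, |v k - tt i j ρ k| ≤ T / 16 := fun k => (hvt k).trans hsq
  have hsb' := abs_le.1 hsb
  have hxb' := abs_le.1 hxb
  have hρ1 : ρ ≤ T + 5 / 2 := by rw [hρ]; linarith [hsb'.2, hxb'.2]
  have hρ0 : 0 ≤ ρ := by rw [hρ]; linarith [hsb'.1, hxb'.1]
  -- differences of the entries of `v`
  have htt : ∀ k l, k ≠ l → ¬ (k = i ∧ l = j) → tt i j ρ l - tt i j ρ k ≤ ρ / 2 := by
    intro k l hkl hne
    unfold tt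
    by_cases h1 : l = j
    · have h2 : k ≠ i := fun h => hne ⟨h, h1⟩
      have h3 : k ≠ j := fun h => hkl (h.trans h1.symm)
      have h4 : l ≠ i := fun h => hij (h.symm.trans h1)
      rw [if_pos h1, if_neg h4, if_neg h3, if_neg h2]
      linarith
    · rw [if_neg h1]
      by_cases h2 : k = j
      · have h3 : k ≠ i := fun h => hij (h.symm.trans h2)
        rw [if_pos h2, if_neg h3]
        split_ifs <;> linarith
      · rw [if_neg h2]
        split_ifs <;> linarith
  have hterm : ∀ k l, k ≠ l → ¬ (k = i ∧ l = j) →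
      |X k l * Real.exp (v l - v k) * a l| ≤ 2 * M * ε := by
    intro k l hkl hne
    have h1 := htt k l hkl hne
    have h2 := abs_le.1 (hvt' l)
    have h3 := abs_le.1 (hvt' k)
    have h4 : v l - v k ≤ ρ / 2 + T / 8 := by linarith [h2.2, h3.1]
    rw [abs_mul, abs_mul, abs_of_pos (Real.exp_pos (v l - v k))]
    have h5 : |X k l| * Real.exp (v l - v k) ≤ Real.exp (-(T / 4)) := by
      calc |X k l| * Real.exp (v l - v k) ≤ Real.exp (-T) * Real.exp (v l - v k) :=
            mul_le_mul_of_nonneg_right (hXT k l) (Real.exp_pos _).le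
        _ = Real.exp (-T + (v l - v k)) := by rw [Real.exp_add]
        _ ≤ _ := Real.exp_le_exp.2 (by linarith)
    calc |X k l| * Real.exp (v l - v k) * |a l| ≤ ε * (2 * M) :=
          mul_le_mul (h5.trans hexpT) (habs l).2 (abs_nonneg _) hε0.le
      _ = 2 * M * ε := by ring
  -- the integer point
  obtain ⟨γ, hγ, hγy⟩ := hv
  refine ⟨γ *ᵥ p₀, ?_, ?_, ?_⟩
  · intro h
    have h1 : p₀ = 0 := by
      have h6 : γ⁻¹ *ᵥ (γ *ᵥ p₀) = p₀ := by
        rw [mulVec_mulVec, Matrix.nonsing_inv_mul _ hγ, one_mulVec]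
      rw [← h6, h, mulVec_zero]
    apply hane i
    rw [ha, h1]
    have : iR (0 : Fin d → ℤ) = 0 := by
      funext k
      simp [iR]
    rw [this, mulVec_zero]
    rfl
  · -- the size
    intro k
    have h1 : y *ᵥ iR (γ *ᵥ p₀) = fun k => Real.exp (v k) * a k := by
      rw [← zR_mulVec_iR, mulVec_mulVec, hγy, ← mulVec_mulVec, ← ha]
      funext k
      rw [mulVec_diagonal]
    have h2 : ((γ *ᵥ p₀) k : ℝ) = ∑ l, y⁻¹ k l * (Real.exp (v l) * a l) := by
      have h3 : iR (γ *ᵥ p₀) = y⁻¹ *ᵥ fun k => Real.exp (v k) * a k := by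
        rw [← h1, mulVec_mulVec, Matrix.nonsing_inv_mul _ hyu, one_mulVec]
      exact congrFun h3 k
    have hvle : ∀ l, v l ≤ ρ / 2 + T / 16 := by
      intro l
      have h3 := (abs_le.1 (hvt' l)).2
      have h4 : tt i j ρ l ≤ ρ / 2 := by
        unfold tt
        by_cases h5 : l = j
        · have h6 : l ≠ i := fun h => hij (h.symm.trans h5)
          rw [if_pos h5, if_neg h6]
          linarith
        · rw [if_neg h5]
          split_ifs <;> linarith
      linarith
    have h3 : |((γ *ᵥ p₀) k : ℝ)| ≤ 2 * (d * B) * M * Real.exp (ρ / 2 + T / 16) := by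
      rw [h2]
      calc |∑ l, y⁻¹ k l * (Real.exp (v l) * a l)| ≤ ∑ l, |y⁻¹ k l * (Real.exp (v l) * a l)| :=
            Finset.abs_sum_le_sum_abs _ _
        _ ≤ ∑ l : Fin d, B * (Real.exp (ρ / 2 + T / 16) * (2 * M)) := by
            refine Finset.sum_le_sum fun l _ => ?_
            rw [abs_mul, abs_mul, abs_of_pos (Real.exp_pos _)]
            refine mul_le_mul (hyB' k l) ?_ (by positivity) (by linarith)
            exact mul_le_mul (Real.exp_le_exp.2 (hvle l)) (habs l).2 (abs_nonneg _)
              (Real.exp_pos _).le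
        _ = _ := by
            rw [Finset.sum_const, Finset.card_univ, Fintype.card_fin, nsmul_eq_mul]
            ring
    refine h3.trans ?_
    have h4 : 2 * (d * B) * M ≤ Real.exp (2 * (d * B) * M) := by
      linarith [Real.add_one_le_exp (2 * (d * B) * M)]
    calc 2 * (d * B) * M * Real.exp (ρ / 2 + T / 16)
        ≤ Real.exp (2 * (d * B) * M) * Real.exp (ρ / 2 + T / 16) :=
          mul_le_mul_of_nonneg_right h4 (Real.exp_pos _).le
      _ = Real.exp (2 * (d * B) * M + (ρ / 2 + T / 16)) := (Real.exp_add _ _).symm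
      _ ≤ _ := by
          refine Real.exp_le_exp.2 ?_
          have h5 : 16 * (2 + 2 * (d * B) * M) ≤ T := by
            have h6 : 0 ≤ 2 * C₄ * C₇ := by positivity
            linarith
          linarith
  · -- the value
    have hval := value_act (X := X) hy ⟨γ, hγ, hγy⟩ hγy p₀
    rw [← ha] at hval
    rw [hval]
    set b : Fin d → ℝ := fun k => if k = i then a i * q else a k with hb
    set E : Fin d → ℝ := fun k => (a k + ∑ l, X k l * Real.exp (v l - v k) * a l) - b k with hE
    have hbE : ∀ k, a k + ∑ l, X k l * Real.exp (v l - v k) * a l = b k + E k := by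
      intro k
      simp only [hE]
      ring
    have hbτ : ∏ k, b k = τ := by
      have h1 : ∀ k, b k = a k * (if k = i then q else 1) := by
        intro k
        simp only [hb]
        by_cases hk : k = i
        · rw [if_pos hk, if_pos hk, hk]
        · rw [if_neg hk, if_neg hk, mul_one]
      rw [Finset.prod_congr rfl fun k _ => h1 k, Finset.prod_mul_distrib, Finset.prod_ite_eq']
      simp only [Finset.mem_univ, if_true]
      rw [← hPr, hq, mul_div_cancel₀ _ hPr0]
    -- the errors
    have hEk : ∀ k, |E k| ≤ (6 + 2 * d) * M * ε := by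
      intro k
      by_cases hk : k = i
      · subst hk
        have h1 : ∑ l, X k l * Real.exp (v l - v k) * a l =
            X k j * Real.exp (v j - v k) * a j +
              ∑ l ∈ Finset.univ.erase j, X k l * Real.exp (v l - v k) * a l :=
          (Finset.add_sum_erase _ (fun l => X k l * Real.exp (v l - v k) * a l)
            (Finset.mem_univ j)).symm
        set ω := (v j - v k) - ρ with hω
        have h2 : X k j * Real.exp (v j - v k) * a j = -(a k) * (Real.exp x * Real.exp ω) := by
          have e1 : Real.exp (v j - v k) = Real.exp T * (Real.exp s * (Real.exp x * Real.exp ω)) := by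
            rw [← Real.exp_add, ← Real.exp_add, ← Real.exp_add]
            congr 1
            rw [hω, hρ]
            ring
          have e2 : Real.exp (-T) * Real.exp T = 1 := by
            rw [← Real.exp_add, neg_add_cancel, Real.exp_zero]
          rw [hXs, e1, hes]
          have e3 : sg * Real.exp (-T) * (Real.exp T * (-sg * a k / a j *
              (Real.exp x * Real.exp ω))) * a j =
              (Real.exp (-T) * Real.exp T) * (sg * sg) * (-(a k)) * (Real.exp x * Real.exp ω) *
                (a j / a j) := by ring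
          rw [e3, e2, hsg2, div_self haj0.ne']
          ring
        have h3 : E k = a k * ((1 - q) * (1 - Real.exp ω)) +
            ∑ l ∈ Finset.univ.erase j, X k l * Real.exp (v l - v k) * a l := by
          simp only [hE, hb, if_true]
          rw [h1, h2, hex]
          ring
        have hω1 : |ω| ≤ ε := hvρ
        have h4 : |1 - Real.exp ω| ≤ 2 * ε := by
          rw [abs_sub_comm]
          have := Real.abs_exp_sub_one_le (x := ω) (hω1.trans hε1)
          linarith
        have h5 : |a k * ((1 - q) * (1 - Real.exp ω))| ≤ 6 * M * ε := by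
          rw [abs_mul, abs_mul]
          have h6 : |1 - q| ≤ 3 / 2 := by
            rw [abs_le]
            constructor <;> linarith [hq2.1, hq2.2]
          calc |a k| * (|1 - q| * |1 - Real.exp ω|) ≤ (2 * M) * (3 / 2 * (2 * ε)) := by
                refine mul_le_mul (habs k).2 ?_ (by positivity) (by positivity)
                exact mul_le_mul h6 h4 (abs_nonneg _) (by norm_num)
            _ = 6 * M * ε := by ring
        have h6 : |∑ l ∈ Finset.univ.erase j, X k l * Real.exp (v l - v k) * a l| ≤
            d * (2 * M * ε) := by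
          refine (Finset.abs_sum_le_sum_abs _ _).trans ?_
          calc ∑ l ∈ Finset.univ.erase j, |X k l * Real.exp (v l - v k) * a l|
              ≤ ∑ l ∈ Finset.univ.erase j, 2 * M * ε := by
                refine Finset.sum_le_sum fun l hl => ?_
                by_cases hlk : k = l
                · subst hlk
                  rw [hX0, zero_mul, zero_mul, abs_zero]
                  positivity
                · exact hterm k l hlk fun h => (Finset.ne_of_mem_erase hl) h.2
            _ ≤ d * (2 * M * ε) := by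
                rw [Finset.sum_const, nsmul_eq_mul]
                refine mul_le_mul_of_nonneg_right ?_ (by positivity)
                have := Finset.card_le_card (Finset.erase_subset j (Finset.univ : Finset (Fin d)))
                rw [Finset.card_univ, Fintype.card_fin] at this
                exact_mod_cast this
        rw [h3]
        refine (abs_add_le _ _).trans ?_
        calc _ ≤ 6 * M * ε + d * (2 * M * ε) := add_le_add h5 h6
          _ = _ := by ring
      · have h1 : E k = ∑ l, X k l * Real.exp (v l - v k) * a l := by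
          simp only [hE, hb, if_neg hk]
          ring
        rw [h1]
        refine (Finset.abs_sum_le_sum_abs _ _).trans ?_
        calc ∑ l, |X k l * Real.exp (v l - v k) * a l| ≤ ∑ l : Fin d, 2 * M * ε := by
              refine Finset.sum_le_sum fun l _ => ?_
              by_cases hlk : k = l
              · subst hlk
                rw [hX0, zero_mul, zero_mul, abs_zero]
                positivity
              · exact hterm k l hlk fun h => hk h.1
          _ = d * (2 * M * ε) := by
              rw [Finset.sum_const, Finset.card_univ, Fintype.card_fin, nsmul_eq_mul]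
          _ ≤ _ := by
              have : 0 ≤ 6 * M * ε := by positivity
              nlinarith
    have hbk : ∀ k, |b k| ≤ 2 * M := by
      intro k
      simp only [hb]
      by_cases hk : k = i
      · rw [if_pos hk, abs_mul]
        calc |a i| * |q| ≤ 2 * M * 1 :=
              mul_le_mul (habs i).2 (hq1.trans (by norm_num)) (abs_nonneg _) (by positivity)
          _ = 2 * M := by ring
      · rw [if_neg hk]
        exact (habs k).2
    have hErr : (6 + 2 * d) * M * ε ≤ (6 + 2 * d) * M :=
      mul_le_of_le_one_right (by positivity) hε1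
    have hfin := prod_diff (Finset.univ : Finset (Fin d)) b E (K := K) (e := (6 + 2 * d) * M * ε)
      hK1 (by positivity) (fun k _ => (hbk k).trans (by rw [hK]; nlinarith))
      (fun k _ => (abs_add_le _ _).trans (by
        rw [hK]
        calc |b k| + |E k| ≤ 2 * M + (6 + 2 * d) * M := add_le_add (hbk k) ((hEk k).trans hErr)
          _ = _ := by ring)) (fun k _ => hEk k)
    rw [hbτ, Finset.card_univ, Fintype.card_fin] at hfin
    rw [Finset.prod_congr rfl fun k _ => hbE k]
    refine hfin.trans ?_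
    calc (d : ℝ) * ((6 + 2 * d) * M * ε) * K ^ d = C₇ * ε := by rw [hC₇]; ring
      _ = 2 * C₄ * C₇ * R ^ 2 / Λ := by rw [hε]; ring
      _ ≤ C * R ^ 2 / Λ := by
          apply div_le_div_of_nonneg_right _ hΛ0.le
          exact mul_le_mul_of_nonneg_right hCC₇ (by positivity)

end Pool.Agent.Run7.h245.EI
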