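import Pool.Agent.Run7.h245.EI.Lat

/-!
# A lower bound for the differences of the entries of the vectors in `LS y`
-/

set_option autoImplicit false
set_option linter.all false

open Matrix H715R2 Finset Polynomial
open scoped Kronecker

namespace Pool.Agent.Run7.h245.EI

variable {d : ℕ}

/-- The product of the nonzero differences of the eigenvalues is a nonzero integer. -/
theorem one_le_prod {y : Matrix (Fin d) (Fin d) ℝ} (hy : y.det ≠ 0)
    {γ : Matrix (Fin d) (Fin d) ℤ} {c : Fin d → ℝ} (h : y * zR γ = diagonal c * y) :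
    1 ≤ ∏ p ∈ (Finset.univ : Finset (Fin d × Fin d)).filter (fun p => c p.1 ≠ c p.2),
      |c p.1 - c p.2| := by
  classical
  -- the integer matrix
  set M : Matrix (Fin d × Fin d) (Fin d × Fin d) ℤ :=
    γ ⊗ₖ (1 : Matrix (Fin d) (Fin d) ℤ) - (1 : Matrix (Fin d) (Fin d) ℤ) ⊗ₖ γ with hM
  set D : Matrix (Fin d × Fin d) (Fin d × Fin d) ℝ := diagonal fun p => c p.1 - c p.2 with hD
  have hmap : M.map (Int.castRingHom ℝ) = zR γ ⊗ₖ (1 : Matrix (Fin d) (Fin d) ℝ) -
      (1 : Matrix (Fin d) (Fin d) ℝ) ⊗ₖ zR γ := by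
    ext ⟨a, b⟩ ⟨a', b'⟩
    rw [hM, Matrix.map_apply, Matrix.sub_apply, Matrix.sub_apply, kroneckerMap_apply,
      kroneckerMap_apply, kroneckerMap_apply, kroneckerMap_apply]
    simp only [zR, Matrix.map_apply, Matrix.one_apply, eq_intCast]
    push_cast
    rfl
  have hconj : (y ⊗ₖ y) * M.map (Int.castRingHom ℝ) = D * (y ⊗ₖ y) := by
    rw [hmap, Matrix.mul_sub, ← mul_kronecker_mul, ← mul_kronecker_mul, h, mul_one]
    have e1 : (diagonal c * y) ⊗ₖ y = (diagonal c ⊗ₖ (1 : Matrix (Fin d) (Fin d) ℝ)) * (y ⊗ₖ y) := by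
      rw [← mul_kronecker_mul, one_mul]
    have e2 : y ⊗ₖ (diagonal c * y) = ((1 : Matrix (Fin d) (Fin d) ℝ) ⊗ₖ diagonal c) * (y ⊗ₖ y) := by
      rw [← mul_kronecker_mul, one_mul]
    rw [e1, e2, ← Matrix.sub_mul]
    congr 1
    ext ⟨a, b⟩ ⟨a', b'⟩
    rw [hD, Matrix.sub_apply, kroneckerMap_apply, kroneckerMap_apply]
    simp only [Matrix.diagonal_apply, Matrix.one_apply, Prod.mk.injEq]
    by_cases h1 : a = a'
    · by_cases h2 : b = b'
      · simp [h1, h2]
      · simp [h1, h2]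
    · by_cases h2 : b = b'
      · simp [h1, h2]
      · simp [h1, h2]
  have hyy : IsUnit (y ⊗ₖ y) := by
    rw [isUnit_iff_isUnit_det, det_kronecker]
    exact (isUnit_iff_ne_zero.2 (mul_ne_zero (pow_ne_zero _ hy) (pow_ne_zero _ hy)))
  obtain ⟨P, hP⟩ := hyy
  have hchar : (M.map (Int.castRingHom ℝ)).charpoly = D.charpoly := by
    have h1 : M.map (Int.castRingHom ℝ) = P.val⁻¹ * D * P.val := by
      have h2 : P.val * M.map (Int.castRingHom ℝ) = D * P.val := by rw [hP]; exact hconj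
      have h3 : P.val⁻¹ * P.val = 1 := by
        rw [← Matrix.coe_units_inv, Units.inv_mul]
      calc M.map (Int.castRingHom ℝ) = P.val⁻¹ * (P.val * M.map (Int.castRingHom ℝ)) := by
            rw [← Matrix.mul_assoc, h3, one_mul]
        _ = P.val⁻¹ * D * P.val := by rw [h2, Matrix.mul_assoc]
    rw [h1]
    exact charpoly_units_conj' P D
  have hχ : M.charpoly.map (Int.castRingHom ℝ) = ∏ p : Fin d × Fin d, (X - C (c p.1 - c p.2)) := by
    rw [← Matrix.charpoly_map, hchar, hD, charpoly_diagonal]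
  -- split off the zero eigenvalues
  set S : Finset (Fin d × Fin d) := Finset.univ.filter (fun p => c p.1 ≠ c p.2) with hS
  set m : ℕ := (Finset.univ.filter (fun p : Fin d × Fin d => ¬ c p.1 ≠ c p.2)).card with hm
  have hsplit : ∏ p : Fin d × Fin d, (X - C (c p.1 - c p.2)) =
      (∏ p ∈ S, (X - C (c p.1 - c p.2))) * X ^ m := by
    rw [← Finset.prod_filter_mul_prod_filter_not Finset.univ (fun p : Fin d × Fin d => c p.1 ≠ c p.2)]
    congr 1
    rw [hm, Finset.prod_congr rfl (g := fun _ => (X : ℝ[X]))]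
    · rw [Finset.prod_const]
    · intro p hp
      have h1 : c p.1 = c p.2 := by
        have := (Finset.mem_filter.1 hp).2
        push Not at this
        exact this
      rw [h1, sub_self, C_0, sub_zero]
  have hcoef : (M.charpoly.map (Int.castRingHom ℝ)).coeff m = ∏ p ∈ S, -(c p.1 - c p.2) := by
    rw [hχ, hsplit]
    have h1 := coeff_mul_X_pow (∏ p ∈ S, (X - C (c p.1 - c p.2))) m 0
    rw [zero_add] at h1
    rw [h1, coeff_zero_eq_eval_zero, eval_prod]
    refine Finset.prod_congr rfl fun p _ => ?_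
    simp
  rw [coeff_map] at hcoef
  have hne : (∏ p ∈ S, -(c p.1 - c p.2)) ≠ 0 := by
    rw [Finset.prod_ne_zero_iff]
    intro p hp
    have h1 := (Finset.mem_filter.1 hp).2
    exact neg_ne_zero.2 (sub_ne_zero.2 h1)
  have h1 : M.charpoly.coeff m ≠ 0 := by
    intro h0
    rw [h0, map_zero] at hcoef
    exact hne hcoef.symm
  have h2 : (1 : ℝ) ≤ |((M.charpoly.coeff m : ℤ) : ℝ)| := by exact_mod_cast Int.one_le_abs h1
  have h3 : ((M.charpoly.coeff m : ℤ) : ℝ) = ∏ p ∈ S, -(c p.1 - c p.2) := hcoef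
  rw [h3, Finset.abs_prod] at h2
  refine h2.trans (le_of_eq ?_)
  refine Finset.prod_congr rfl fun p _ => ?_
  rw [abs_neg]

/-- The lower bound. -/
theorem gap {y : Matrix (Fin d) (Fin d) ℝ} (hy : y.det ≠ 0) {w : Fin d → ℝ} (hw : w ∈ LS y)
    {N : ℝ} (hN : ∀ k, |w k| ≤ N) {i j : Fin d} (hij : w i ≠ w j) :
    Real.exp (-((d : ℝ) ^ 2 + 1) * (N + 1)) ≤ |w i - w j| := by
  classical
  obtain ⟨γ, hγ, hγy⟩ := hw
  have h1 := one_le_prod hy hγy
  have hN0 : 0 ≤ N := (abs_nonneg _).trans (hN i)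
  set c : Fin d → ℝ := fun k => Real.exp (w k) with hc
  set S : Finset (Fin d × Fin d) := Finset.univ.filter (fun p => c p.1 ≠ c p.2) with hS
  have hmem : (i, j) ∈ S := by
    rw [hS, Finset.mem_filter]
    exact ⟨Finset.mem_univ _, fun h => hij (Real.exp_injective h)⟩
  have hcb : ∀ k, c k ≤ Real.exp N := fun k => Real.exp_le_exp.2 ((le_abs_self _).trans (hN k))
  have hcp : ∀ k, 0 < c k := fun k => Real.exp_pos _
  have hbd : ∀ p : Fin d × Fin d, |c p.1 - c p.2| ≤ Real.exp (N + 1) := by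
    intro p
    have e1 : |c p.1 - c p.2| ≤ Real.exp N := by
      rw [abs_le]
      constructor
      · linarith [hcb p.2, hcp p.1]
      · linarith [hcb p.1, hcp p.2]
    exact e1.trans (Real.exp_le_exp.2 (by linarith))
  have hE1 : 1 ≤ Real.exp (N + 1) := Real.one_le_exp (by linarith)
  rw [← Finset.mul_prod_erase S (fun p => |c p.1 - c p.2|) hmem] at h1
  have h2 : ∏ p ∈ S.erase (i, j), |c p.1 - c p.2| ≤ Real.exp (N + 1) ^ (d ^ 2) := by
    calc ∏ p ∈ S.erase (i, j), |c p.1 - c p.2| ≤ ∏ p ∈ S.erase (i, j), Real.exp (N + 1) :=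
          Finset.prod_le_prod (fun _ _ => abs_nonneg _) fun p _ => hbd p
      _ = Real.exp (N + 1) ^ (S.erase (i, j)).card := by rw [Finset.prod_const]
      _ ≤ Real.exp (N + 1) ^ (d ^ 2) := by
          refine pow_le_pow_right₀ hE1 ?_
          calc (S.erase (i, j)).card ≤ (Finset.univ : Finset (Fin d × Fin d)).card :=
                Finset.card_le_card (Finset.subset_univ _)
            _ = d ^ 2 := by rw [Finset.card_univ, Fintype.card_prod, Fintype.card_fin, sq]
  have h3 : 1 ≤ |c i - c j| * Real.exp (N + 1) ^ (d ^ 2) :=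
    h1.trans (mul_le_mul_of_nonneg_left h2 (abs_nonneg _))
  have hlip : ∀ a b : ℝ, a ≤ N → b ≤ a → Real.exp a - Real.exp b ≤ Real.exp (N + 1) * (a - b) := by
    intro a b ha hba
    have e1 : Real.exp a - Real.exp b ≤ Real.exp a * (a - b) := by
      have e2 := Real.add_one_le_exp (b - a)
      have e3 : Real.exp b = Real.exp a * Real.exp (b - a) := by
        rw [← Real.exp_add]; congr 1; ring
      rw [e3]
      nlinarith [Real.exp_pos a]
    refine e1.trans (mul_le_mul_of_nonneg_right (Real.exp_le_exp.2 (by linarith)) (by linarith))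
  have h4 : |c i - c j| ≤ Real.exp (N + 1) * |w i - w j| := by
    rcases le_total (w i) (w j) with h | h
    · have := hlip (w j) (w i) ((le_abs_self _).trans (hN j)) h
      rw [abs_sub_comm (c i), abs_sub_comm (w i), abs_of_nonneg (by linarith : 0 ≤ w j - w i),
        abs_of_nonneg (by simp only [hc]; linarith [Real.exp_le_exp.2 h])]
      exact this
    · have := hlip (w i) (w j) ((le_abs_self _).trans (hN i)) h
      rw [abs_of_nonneg (by linarith : 0 ≤ w i - w j),
        abs_of_nonneg (by simp only [hc]; linarith [Real.exp_le_exp.2 h])]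
      exact this
  have h5 : 1 ≤ |w i - w j| * Real.exp (((d : ℝ) ^ 2 + 1) * (N + 1)) := by
    have e1 : Real.exp (((d : ℝ) ^ 2 + 1) * (N + 1)) =
        Real.exp (N + 1) * Real.exp (N + 1) ^ (d ^ 2) := by
      rw [← Real.exp_nat_mul, ← Real.exp_add]
      congr 1
      push_cast
      ring
    rw [e1]
    calc (1 : ℝ) ≤ |c i - c j| * Real.exp (N + 1) ^ (d ^ 2) := h3
      _ ≤ (Real.exp (N + 1) * |w i - w j|) * Real.exp (N + 1) ^ (d ^ 2) :=
          mul_le_mul_of_nonneg_right h4 (by positivity)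
      _ = _ := by ring
  have e2 : Real.exp (-((d : ℝ) ^ 2 + 1) * (N + 1)) =
      (Real.exp (((d : ℝ) ^ 2 + 1) * (N + 1)))⁻¹ := by
    rw [← Real.exp_neg]
    congr 1
    ring
  rw [e2, inv_le_iff_one_le_mul₀ (Real.exp_pos _)]
  exact h5

end Pool.Agent.Run7.h245.EI
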