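import Pool.Agent.TH314.CSD.Stab

/-!
# The logarithms of the stabilizer of a matrix: rounding and pairs of independent differences
-/

set_option autoImplicit false
set_option linter.all false

open Matrix H715R2 Finset

namespace Pool.Agent.Run7.h245.EI

variable {d : ℕ}

/-- The vectors `v` such that `y γ = diag (exp v) y` for some integral matrix `γ` of determinant `±1`. -/
def LS (y : Matrix (Fin d) (Fin d) ℝ) : AddSubgroup (Fin d → ℝ) where
  carrier := {v | ∃ γ : Matrix (Fin d) (Fin d) ℤ, IsUnit γ.det ∧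
    y * zR γ = diagonal (fun k => Real.exp (v k)) * y}
  zero_mem' := ⟨1, by simp, by
    rw [zR_one, mul_one]
    have : (diagonal fun k : Fin d => Real.exp ((0 : Fin d → ℝ) k)) = 1 := by
      ext i j
      simp [diagonal_apply, one_apply]
    rw [this, one_mul]⟩
  add_mem' := by
    rintro v w ⟨γ, h1, h2⟩ ⟨γ', h1', h2'⟩
    refine ⟨γ * γ', by rw [det_mul]; exact h1.mul h1', ?_⟩
    rw [zR_mul, ← Matrix.mul_assoc, h2, Matrix.mul_assoc, h2', ← Matrix.mul_assoc,
      diagonal_mul_diagonal]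
    congr 2
    funext k
    rw [Pi.add_apply, Real.exp_add]
  neg_mem' := by
    rintro v ⟨γ, h1, h2⟩
    have hinv : IsUnit (γ⁻¹).det := by
      rw [det_nonsing_inv]
      exact (Ring.inverse_unit h1.unit ▸ (h1.unit⁻¹).isUnit : IsUnit (Ring.inverse γ.det))
    refine ⟨γ⁻¹, hinv, ?_⟩
    have h3 : y = diagonal (fun k => Real.exp (v k)) * y * zR γ⁻¹ := by
      rw [← h2, Matrix.mul_assoc, zR_inv h1, mul_one]
    have h4 : diagonal (fun k => Real.exp ((-v) k)) * diagonal (fun k => Real.exp (v k)) =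
        (1 : Matrix (Fin d) (Fin d) ℝ) := by
      rw [diagonal_mul_diagonal]
      ext i j
      simp only [diagonal_apply, one_apply, Pi.neg_apply]
      split_ifs with h
      · rw [← Real.exp_add, neg_add_cancel, Real.exp_zero]
      · rfl
    conv_rhs => rw [h3]
    rw [Matrix.mul_assoc (diagonal _) y, ← Matrix.mul_assoc (diagonal fun k => Real.exp ((-v) k)),
      h4, one_mul]

theorem mem_LS {y : Matrix (Fin d) (Fin d) ℝ} {v : Fin d → ℝ} : v ∈ LS y ↔
    ∃ γ : Matrix (Fin d) (Fin d) ℤ, IsUnit γ.det ∧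
      y * zR γ = diagonal (fun k => Real.exp (v k)) * y := Iff.rfl

/-- `d - 1` independent vectors of size at most `R` in `LS y`. -/
structure Un (y : Matrix (Fin d) (Fin d) ℝ) (R : ℝ) (u : Fin (d - 1) → Fin d → ℝ) : Prop where
  mem : ∀ k, u k ∈ LS y
  bd : ∀ k i, |u k i| ≤ R
  ind : LinearIndependent ℝ u

theorem sum_zero {y : Matrix (Fin d) (Fin d) ℝ} (hy : y.det ≠ 0) {v : Fin d → ℝ} (hv : v ∈ LS y) :
    ∑ i, v i = 0 := by
  obtain ⟨γ, h1, h2⟩ := hv
  have h3 := congrArg Matrix.det h2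
  rw [det_mul, det_mul, det_diagonal, mul_comm] at h3
  have h4 := mul_right_cancel₀ hy h3
  rw [det_zR] at h4
  have h5 : (0 : ℝ) < ∏ i, Real.exp (v i) := Finset.prod_pos fun i _ => Real.exp_pos _
  have h6 := abs_det_of_isUnit h1
  rw [h4, abs_of_pos h5, ← Real.exp_sum] at h6
  exact Real.exp_eq_one_iff _ |>.1 h6

theorem span_u {y : Matrix (Fin d) (Fin d) ℝ} (hy : y.det ≠ 0) (hd : 0 < d) {R : ℝ}
    {u : Fin (d - 1) → Fin d → ℝ} (hu : Un y R u) {q : Fin d → ℝ} (hq : ∑ i, q i = 0) :
    ∃ c : Fin (d - 1) → ℝ, ∀ i, q i = ∑ k, c k * u k i := by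
  classical
  let φ : Module.Dual ℝ (Fin d → ℝ) := ∑ i : Fin d, LinearMap.proj i
  have hφ : ∀ x : Fin d → ℝ, φ x = ∑ i, x i := by
    intro x
    simp [φ]
  have hφ0 : φ ≠ 0 := by
    intro h
    have h1 := congrArg (fun f : Module.Dual ℝ (Fin d → ℝ) => f (Pi.single ⟨0, hd⟩ 1)) h
    simp only [hφ, LinearMap.zero_apply] at h1
    rw [Finset.sum_pi_single'] at h1
    simp at h1
  have hfr : Module.finrank ℝ (LinearMap.ker φ) = d - 1 := by
    have h1 := Module.Dual.finrank_ker_add_one_of_ne_zero hφ0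
    rw [Module.finrank_fin_fun] at h1
    omega
  have hmem : ∀ k, u k ∈ LinearMap.ker φ := by
    intro k
    rw [LinearMap.mem_ker, hφ]
    exact sum_zero hy (hu.mem k)
  let u' : Fin (d - 1) → LinearMap.ker φ := fun k => ⟨u k, hmem k⟩
  have hind : LinearIndependent ℝ u' := by
    apply LinearIndependent.of_comp (LinearMap.ker φ).subtype
    exact hu.ind
  have htop := hind.span_eq_top_of_card_eq_finrank' (by rw [Fintype.card_fin, hfr])
  have hqm : (⟨q, by rw [LinearMap.mem_ker, hφ]; exact hq⟩ : LinearMap.ker φ) ∈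
      Submodule.span ℝ (Set.range u') := by
    rw [htop]
    exact Submodule.mem_top
  obtain ⟨c, hc⟩ := (Submodule.mem_span_range_iff_exists_fun ℝ).1 hqm
  refine ⟨c, fun i => ?_⟩
  have h1 := congrArg (fun x : LinearMap.ker φ => (x : Fin d → ℝ) i) hc
  simp only [AddSubmonoidClass.coe_finset_sum, Finset.sum_apply] at h1
  rw [← h1]
  refine Finset.sum_congr rfl fun k _ => ?_
  rfl

/-- Rounding. -/
theorem round_u {y : Matrix (Fin d) (Fin d) ℝ} (hy : y.det ≠ 0) (hd : 0 < d) {R : ℝ} (hR : 0 ≤ R)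
    {u : Fin (d - 1) → Fin d → ℝ} (hu : Un y R u) {q : Fin d → ℝ} (hq : ∑ i, q i = 0) :
    ∃ v ∈ LS y, ∀ i, |v i - q i| ≤ d * R := by
  obtain ⟨c, hc⟩ := span_u hy hd hu hq
  refine ⟨∑ k, ⌊c k⌋ • u k, sum_mem fun k _ => (LS y).zsmul_mem (hu.mem k) _, fun i => ?_⟩
  have e : (∑ k, ⌊c k⌋ • u k) i - q i = ∑ k, -(Int.fract (c k) * u k i) := by
    rw [hc i, Finset.sum_apply, ← Finset.sum_sub_distrib]
    refine Finset.sum_congr rfl fun k _ => ?_
    rw [Pi.smul_apply, zsmul_eq_mul, Int.fract]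
    ring
  rw [e]
  calc |∑ k, -(Int.fract (c k) * u k i)| ≤ ∑ k, |-(Int.fract (c k) * u k i)| :=
        Finset.abs_sum_le_sum_abs _ _
    _ ≤ ∑ k : Fin (d - 1), R := by
        refine Finset.sum_le_sum fun k _ => ?_
        rw [abs_neg, abs_mul, abs_of_nonneg (Int.fract_nonneg _)]
        calc Int.fract (c k) * |u k i| ≤ 1 * |u k i| :=
              mul_le_mul_of_nonneg_right (Int.fract_lt_one _).le (abs_nonneg _)
          _ ≤ R := by rw [one_mul]; exact hu.bd k i
    _ = ((d - 1 : ℕ) : ℝ) * R := by rw [Finset.sum_const, Finset.card_univ, Fintype.card_fin,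
          nsmul_eq_mul]
    _ ≤ d * R := mul_le_mul_of_nonneg_right (by exact_mod_cast Nat.sub_le d 1) hR

/-- No linear form vanishes at a nonzero integer point. -/
theorem ne_zero_u {y : Matrix (Fin d) (Fin d) ℝ} (hy : y.det ≠ 0) (hd : 0 < d) {R : ℝ} (hR : 0 ≤ R)
    {u : Fin (d - 1) → Fin d → ℝ} (hu : Un y R u) {m : Fin d → ℤ} (hm : m ≠ 0) (k₀ : Fin d) :
    (y *ᵥ iR m) k₀ ≠ 0 := by
  classical
  intro h0
  have hyu : IsUnit y.det := isUnit_iff_ne_zero.2 hy
  set z := y *ᵥ iR m with hz
  set S : Finset (Fin d) := Finset.univ.filter fun k => z k ≠ 0 with hS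
  have hk₀ : k₀ ∉ S := by simp [hS, h0]
  set T : Finset (Fin d) := Finset.univ.filter fun k => ¬ z k ≠ 0 with hT
  have hk₀T : k₀ ∈ T := by simp [hT, h0]
  have hTpos : (0 : ℝ) < T.card := by exact_mod_cast Finset.card_pos.2 ⟨k₀, hk₀T⟩
  -- a bound for the inverse
  set Y : ℝ := ∑ i, ∑ j, |y⁻¹ i j| with hY
  have hY0 : 0 ≤ Y := Finset.sum_nonneg fun _ _ => Finset.sum_nonneg fun _ _ => abs_nonneg _
  set Z : ℝ := ∑ k, |z k| with hZ
  have hZ0 : 0 ≤ Z := Finset.sum_nonneg fun _ _ => abs_nonneg _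
  -- a direction
  obtain ⟨A, hA⟩ : ∃ A : ℝ, Y * Z * Real.exp (d * R) < A := exists_gt _
  have hA0 : 0 < A := lt_of_le_of_lt (by positivity) hA
  set q : Fin d → ℝ := fun k => if z k ≠ 0 then -A else A * S.card / T.card with hq
  have hqs : ∑ k, q k = 0 := by
    rw [hq, Finset.sum_ite, Finset.sum_const, Finset.sum_const, nsmul_eq_mul, nsmul_eq_mul]
    have : (T.card : ℝ) ≠ 0 := hTpos.ne'
    field_simp
    ring
  obtain ⟨v, hv, hvq⟩ := round_u hy hd hR hu hqs
  obtain ⟨γ, hγ, hγy⟩ := hv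
  -- the integer point
  have h1 : y *ᵥ iR (γ *ᵥ m) = fun k => Real.exp (v k) * z k := by
    rw [← zR_mulVec_iR, mulVec_mulVec, hγy, ← mulVec_mulVec, ← hz]
    funext k
    rw [mulVec_diagonal]
  have h2 : ∀ k, |Real.exp (v k) * z k| ≤ Real.exp (-A + d * R) * |z k| := by
    intro k
    rw [abs_mul, abs_of_pos (Real.exp_pos _)]
    by_cases hzk : z k = 0
    · rw [hzk]; simp
    · refine mul_le_mul_of_nonneg_right (Real.exp_le_exp.2 ?_) (abs_nonneg _)
      have h3 := (abs_le.1 (hvq k)).2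
      have h4 : q k = -A := by simp only [hq]; rw [if_pos hzk]
      rw [h4] at h3
      linarith
  have h3 : iR (γ *ᵥ m) = y⁻¹ *ᵥ fun k => Real.exp (v k) * z k := by
    rw [← h1, mulVec_mulVec, Matrix.nonsing_inv_mul _ hyu, one_mulVec]
  have h4 : ∀ i, |((γ *ᵥ m) i : ℝ)| < 1 := by
    intro i
    have e1 : ((γ *ᵥ m) i : ℝ) = ∑ j, y⁻¹ i j * (Real.exp (v j) * z j) := congrFun h3 i
    rw [e1]
    calc |∑ j, y⁻¹ i j * (Real.exp (v j) * z j)| ≤ ∑ j, |y⁻¹ i j * (Real.exp (v j) * z j)| :=
          Finset.abs_sum_le_sum_abs _ _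
      _ ≤ ∑ j, |y⁻¹ i j| * (Real.exp (-A + d * R) * Z) := by
          refine Finset.sum_le_sum fun j _ => ?_
          rw [abs_mul]
          refine mul_le_mul_of_nonneg_left ((h2 j).trans ?_) (abs_nonneg _)
          refine mul_le_mul_of_nonneg_left ?_ (Real.exp_pos _).le
          exact Finset.single_le_sum (f := fun k => |z k|) (fun _ _ => abs_nonneg _)
            (Finset.mem_univ j)
      _ = (∑ j, |y⁻¹ i j|) * (Real.exp (-A + d * R) * Z) := by rw [Finset.sum_mul]
      _ ≤ Y * (Real.exp (-A + d * R) * Z) := by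
          refine mul_le_mul_of_nonneg_right ?_ (by positivity)
          exact Finset.single_le_sum (f := fun i => ∑ j, |y⁻¹ i j|)
            (fun _ _ => Finset.sum_nonneg fun _ _ => abs_nonneg _) (Finset.mem_univ i)
      _ = (Y * Z * Real.exp (d * R)) * Real.exp (-A) := by rw [Real.exp_add]; ring
      _ < A * Real.exp (-A) := mul_lt_mul_of_pos_right hA (Real.exp_pos _)
      _ ≤ 1 := by
          rw [Real.exp_neg, ← div_eq_mul_inv, div_le_one (Real.exp_pos _)]
          linarith [Real.add_one_le_exp A]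
  have h5 : γ *ᵥ m = 0 := by
    funext i
    have h6 := h4 i
    have h7 : |(γ *ᵥ m) i| < 1 := by exact_mod_cast h6
    exact Int.abs_lt_one_iff.1 h7
  apply hm
  have h6 : γ⁻¹ *ᵥ (γ *ᵥ m) = m := by
    rw [mulVec_mulVec, Matrix.nonsing_inv_mul _ hγ, one_mulVec]
  rw [← h6, h5, mulVec_zero]

/-- Two of the generators have differences at `i` and `j` which are independent over the integers. -/
theorem exists_pair {y : Matrix (Fin d) (Fin d) ℝ} (hy : y.det ≠ 0) (hd : 3 ≤ d) {R : ℝ} (hR : 0 ≤ R)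
    {u : Fin (d - 1) → Fin d → ℝ} (hu : Un y R u) {i j : Fin d} (hij : i ≠ j) :
    ∃ a b : Fin (d - 1), ∀ k l : ℤ, (k : ℝ) * (u a j - u a i) = l * (u b j - u b i) →
      k = 0 ∧ l = 0 := by
  classical
  by_contra hcon
  push Not at hcon
  have hd0 : 0 < d := by omega
  set α : Fin (d - 1) → ℝ := fun a => u a j - u a i with hα
  -- some difference is not zero
  obtain ⟨b, hb⟩ : ∃ b, α b ≠ 0 := by
    by_contra h
    push Not at h
    set q : Fin d → ℝ := fun k => if k = i then 1 else if k = j then -1 else 0 with hq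
    have hqs : ∑ k, q k = 0 := by
      have e : ∀ k, q k = (if k = i then (1 : ℝ) else 0) + (if k = j then -1 else 0) := by
        intro k
        simp only [hq]
        by_cases h1 : k = i
        · rw [if_pos h1, if_pos h1, if_neg (fun h2 => hij (h1.symm.trans h2)), add_zero]
        · rw [if_neg h1, if_neg h1, zero_add]
      rw [Finset.sum_congr rfl fun k _ => e k, Finset.sum_add_distrib, Finset.sum_ite_eq',
        Finset.sum_ite_eq']
      simp
    obtain ⟨c, hc⟩ := span_u hy hd0 hu hqs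
    have h1 : q j - q i = ∑ k, c k * α k := by
      rw [hc j, hc i, ← Finset.sum_sub_distrib]
      refine Finset.sum_congr rfl fun k _ => ?_
      simp only [hα]
      ring
    rw [Finset.sum_eq_zero fun k _ => by rw [h k, mul_zero]] at h1
    simp only [hq, if_true, if_neg hij.symm] at h1
    norm_num at h1
  -- all are commensurable with it
  choose! K L hKL using fun a : Fin (d - 1) => hcon a b
  have hK0 : ∀ a, K a ≠ 0 := by
    intro a h
    have h1 := (hKL a).1
    rw [h, Int.cast_zero, zero_mul] at h1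
    have h2 : (L a : ℝ) = 0 := by
      rcases mul_eq_zero.1 h1.symm with h3 | h3
      · exact h3
      · exact absurd h3 hb
    exact (hKL a).2 h (by exact_mod_cast h2)
  set Q : ℤ := ∏ a, K a with hQ
  have hQ0 : (Q : ℝ) ≠ 0 := by
    have : Q ≠ 0 := Finset.prod_ne_zero_iff.2 fun a _ => hK0 a
    exact_mod_cast this
  have hm : ∀ a, ∃ m : ℤ, (Q : ℝ) * α a = m * α b := by
    intro a
    obtain ⟨m, hm⟩ : K a ∣ Q := Finset.dvd_prod_of_mem K (Finset.mem_univ a)
    refine ⟨m * L a, ?_⟩
    have h1 := (hKL a).1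
    rw [hm]
    push_cast
    have h2 : (K a : ℝ) * α a = L a * α b := h1
    linear_combination (m : ℝ) * h2
  choose m hm using hm
  set w : Fin (d - 1) → Fin d → ℝ := fun a => Q • u a - m a • u b with hw
  have hwmem : ∀ a, w a ∈ LS y := fun a =>
    sub_mem ((LS y).zsmul_mem (hu.mem a) _) ((LS y).zsmul_mem (hu.mem b) _)
  have hwk : ∀ a k, w a k = (Q : ℝ) * u a k - (m a : ℝ) * u b k := by
    intro a k
    rw [hw]
    show (Q • u a) k - (m a • u b) k = _
    rw [Pi.smul_apply, Pi.smul_apply, zsmul_eq_mul, zsmul_eq_mul]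
  have hwij : ∀ a, w a j = w a i := by
    intro a
    have h1 := hm a
    rw [hwk, hwk]
    simp only [hα] at h1
    linear_combination h1
  set C : ℝ := ∑ a, ∑ k, |w a k| with hC
  have hC0 : 0 ≤ C := Finset.sum_nonneg fun _ _ => Finset.sum_nonneg fun _ _ => abs_nonneg _
  -- the target
  set ρ : Fin d → Fin d := fun k => if k = j then i else k with hρ
  set M : ℝ := 2 * C + 1 with hM
  set q : Fin d → ℝ := fun k => M * ((ρ k : ℕ) : ℝ) - (∑ l : Fin d, M * ((ρ l : ℕ) : ℝ)) / d with hq
  have hqs : ∑ k, q k = 0 := by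
    have hd' : (d : ℝ) ≠ 0 := by exact_mod_cast hd0.ne'
    rw [hq, Finset.sum_sub_distrib, Finset.sum_const, Finset.card_univ, Fintype.card_fin,
      nsmul_eq_mul, mul_div_cancel₀ _ hd', sub_self]
  obtain ⟨c, hc⟩ := span_u hy hd0 hu hqs
  have hρij : ρ j = ρ i := by simp [hρ]
  have hqij : q j = q i := by simp only [hq, hρij]
  have hcα : ∑ a, c a * m a = 0 := by
    have h1 : ∑ a, c a * α a = 0 := by
      have h2 : q j - q i = ∑ k, c k * α k := by
        rw [hc j, hc i, ← Finset.sum_sub_distrib]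
        refine Finset.sum_congr rfl fun k _ => ?_
        simp only [hα]
        ring
      rw [← h2, hqij, sub_self]
    have h3 : (∑ a, c a * m a) * α b = Q * ∑ a, c a * α a := by
      rw [Finset.sum_mul, Finset.mul_sum]
      refine Finset.sum_congr rfl fun a _ => ?_
      linear_combination (-(c a)) * hm a
    rw [h1, mul_zero] at h3
    exact (mul_eq_zero.1 h3).resolve_right hb
  have hcw : ∀ k, q k = ∑ a, (c a / Q) * w a k := by
    intro k
    have h1 : ∀ a, (c a / Q) * w a k = c a * u a k - (c a * m a) * (u b k / Q) := by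
      intro a
      rw [hwk]
      field_simp
    rw [Finset.sum_congr rfl fun a _ => h1 a, Finset.sum_sub_distrib, ← Finset.sum_mul, hcα,
      zero_mul, sub_zero]
    exact hc k
  -- rounding inside the kernel
  set v : Fin d → ℝ := ∑ a, ⌊c a / Q⌋ • w a with hv
  have hvmem : v ∈ LS y := sum_mem fun a _ => (LS y).zsmul_mem (hwmem a) _
  have hvk : ∀ k, v k = ∑ a, (⌊c a / Q⌋ : ℝ) * w a k := by
    intro k
    rw [hv, Finset.sum_apply]
    refine Finset.sum_congr rfl fun a _ => ?_
    rw [Pi.smul_apply, zsmul_eq_mul]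
  have hvij : v j = v i := by
    rw [hvk, hvk]
    exact Finset.sum_congr rfl fun a _ => by rw [hwij a]
  have hvq : ∀ k, |v k - q k| ≤ C := by
    intro k
    have e : v k - q k = ∑ a, -(Int.fract (c a / Q) * w a k) := by
      rw [hvk, hcw k, ← Finset.sum_sub_distrib]
      refine Finset.sum_congr rfl fun a _ => ?_
      rw [Int.fract]
      ring
    rw [e]
    refine (Finset.abs_sum_le_sum_abs _ _).trans ?_
    refine Finset.sum_le_sum fun a _ => ?_
    rw [abs_neg, abs_mul, abs_of_nonneg (Int.fract_nonneg _)]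
    calc Int.fract (c a / Q) * |w a k| ≤ 1 * |w a k| :=
          mul_le_mul_of_nonneg_right (Int.fract_lt_one _).le (abs_nonneg _)
      _ ≤ ∑ k, |w a k| := by
          rw [one_mul]
          exact Finset.single_le_sum (f := fun k => |w a k|) (fun _ _ => abs_nonneg _)
            (Finset.mem_univ k)
  -- the values are different except at `i`, `j`
  have hdist : ∀ k l, v k = v l ↔ ρ k = ρ l := by
    intro k l
    constructor
    · intro h
      by_contra hne
      have hne' : (ρ k : ℕ) ≠ (ρ l : ℕ) := fun h' => hne (Fin.ext h')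
      have h1 : 1 ≤ |((ρ k : ℕ) : ℝ) - ((ρ l : ℕ) : ℝ)| := by
        have h2 : ((ρ k : ℕ) : ℤ) - ((ρ l : ℕ) : ℤ) ≠ 0 := by omega
        have h3 := Int.one_le_abs h2
        exact_mod_cast h3
      have h2 : q k - q l = M * (((ρ k : ℕ) : ℝ) - ((ρ l : ℕ) : ℝ)) := by
        simp only [hq]
        ring
      have h3 : |q k - q l| ≤ 2 * C := by
        have e : q k - q l = -(v k - q k) + (v l - q l) := by rw [h]; ring
        rw [e]
        refine (abs_add_le _ _).trans ?_
        rw [abs_neg]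
        linarith [hvq k, hvq l]
      rw [h2, abs_mul, abs_of_pos (by rw [hM]; positivity : 0 < M)] at h3
      have h4 : M * 1 ≤ M * |((ρ k : ℕ) : ℝ) - ((ρ l : ℕ) : ℝ)| :=
        mul_le_mul_of_nonneg_left h1 (by rw [hM]; positivity)
      linarith
    · intro h
      by_cases hk : k = j
      · by_cases hl : l = j
        · rw [hk, hl]
        · simp only [hρ, if_pos hk, if_neg hl] at h
          rw [hk, hvij, h]
      · by_cases hl : l = j
        · simp only [hρ, if_neg hk, if_pos hl] at h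
          rw [hl, hvij, h]
        · simp only [hρ, if_neg hk, if_neg hl] at h
          rw [h]
  have hcard : (Finset.univ.image fun k => Real.exp (v k)).card = d - 1 := by
    have e1 : (Finset.univ.image fun k => Real.exp (v k)).card = (Finset.univ.image ρ).card := by
      have h1 : ∀ k, Real.exp (v k) = (fun r : Fin d => Real.exp (v r)) (ρ k) := by
        intro k
        simp only [Real.exp_eq_exp]
        rw [hdist]
        simp only [hρ]
        by_cases hk : k = j
        · rw [if_pos hk, if_neg hij]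
        · rw [if_neg hk, if_neg hk]
      have h2 : (Finset.univ.image fun k => Real.exp (v k)) =
          (Finset.univ.image ρ).image fun r => Real.exp (v r) := by
        rw [Finset.image_image]
        exact Finset.image_congr fun k _ => h1 k
      rw [h2, Finset.card_image_of_injOn]
      intro r hr r' hr' h3
      rw [Finset.coe_image, Finset.coe_univ, Set.image_univ] at hr hr'
      obtain ⟨k, rfl⟩ := hr
      obtain ⟨l, rfl⟩ := hr'
      have h4 : v (ρ k) = v (ρ l) := Real.exp_injective h3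
      have h5 := (hdist _ _).1 h4
      have h6 : ∀ k, ρ (ρ k) = ρ k := by
        intro k
        simp only [hρ]
        by_cases hk : k = j
        · rw [if_pos hk, if_neg hij]
        · rw [if_neg hk, if_neg hk]
      rwa [h6, h6] at h5
    rw [e1]
    have h2 : Finset.univ.image ρ = Finset.univ.erase j := by
      ext k
      rw [Finset.mem_image, Finset.mem_erase]
      constructor
      · rintro ⟨l, -, rfl⟩
        refine ⟨?_, Finset.mem_univ _⟩
        simp only [hρ]
        by_cases hl : l = j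
        · rw [if_pos hl]; exact hij
        · rw [if_neg hl]; exact hl
      · rintro ⟨hk, -⟩
        exact ⟨k, Finset.mem_univ _, by simp only [hρ]; rw [if_neg hk]⟩
    rw [h2, Finset.card_erase_of_mem (Finset.mem_univ _), Finset.card_univ, Fintype.card_fin]
  obtain ⟨γ, hγ, hγy⟩ := hvmem
  have hdvd := TH314.CSD.card_image_dvd hd0 hy (fun n hn => by
    rw [FF_eq]
    exact Finset.prod_ne_zero_iff.2 fun k _ => ne_zero_u hy hd0 hR hu hn k) hγy
  rw [hcard] at hdvd
  obtain ⟨t, ht⟩ := hdvd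
  have h2 : t = 1 ∨ 2 ≤ t ∨ t = 0 := by omega
  rcases h2 with h2 | h2 | h2
  · rw [h2] at ht; omega
  · have : (d - 1) * 2 ≤ (d - 1) * t := Nat.mul_le_mul_left _ h2
    omega
  · rw [h2] at ht; omega

end Pool.Agent.Run7.h245.EI
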