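import Pool.Agent.Run7.h245.EI.Core

/-!
# Effective isolation: values of a product of linear forms near a matrix with many units
-/

set_option autoImplicit false
set_option linter.all false

open Matrix H715R2 Finset

namespace Pool.Agent.Run7.h245.EI

theorem main (d : ℕ) (hd : 3 ≤ d) (B : ℝ) (hB1 : 1 ≤ B) : ∃ C : ℝ, 1 ≤ C ∧
    ∀ (R : ℝ) (y : Matrix (Fin d) (Fin d) ℝ) (u : Fin (d - 1) → Fin d → ℝ), 1 ≤ R →
      y.det ≠ 0 → (∀ k l, |y k l| ≤ B) → (∀ k l, |y⁻¹ k l| ≤ B) → Un y R u →
    ∀ (g : Matrix (Fin d) (Fin d) ℝ) (δ m : ℝ), 0 < δ → (∀ k l, |g k l - y k l| ≤ δ) →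
      Real.exp (C * R ^ 2) ≤ Real.log (1 / δ) → 0 < m →
      (∀ a : Fin d → ℝ, ∃ k l, m ≤ |g k l - a k * y k l|) →
    ∀ τ : ℝ, |τ| ≤ B → ∃ p : Fin d → ℤ, p ≠ 0 ∧ (∀ k, |(p k : ℝ)| ≤ 1 / m) ∧
      |FF g (iR p) - τ| ≤ C * R ^ 2 / Real.log (Real.log (1 / δ)) := by
  have hd3 : (3 : ℝ) ≤ d := by exact_mod_cast hd
  have hd0 : 0 < d := by omega
  set B' : ℝ := 2 ^ d * B with hB'
  have h2d : (1 : ℝ) ≤ 2 ^ d := one_le_pow₀ (by norm_num)
  have hBB' : B ≤ B' := le_mul_of_one_le_left (by linarith) h2d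
  obtain ⟨C₀, hC₀, hcore⟩ := core d hd B' (hB1.trans hBB')
  have hdB : 3 ≤ d * B := by nlinarith
  set C : ℝ := 2 * (2 ^ d * C₀) + 16 * (d * B) with hC
  have hC1 : 1 ≤ C := by
    have : 0 ≤ 2 * (2 ^ d * C₀) := by positivity
    linarith
  refine ⟨C, hC1, ?_⟩
  intro R y u hR hy hyB hyB' hu g δ m hδ hgy hδC hm hdist τ hτ
  have hyu : IsUnit y.det := isUnit_iff_ne_zero.2 hy
  have hR2 : 1 ≤ R ^ 2 := one_le_pow₀ hR
  set L := Real.log (1 / δ) with hL
  have hLC : C * R ^ 2 + 1 ≤ L := (Real.add_one_le_exp _).trans hδC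
  have hCR : C ≤ C * R ^ 2 := le_mul_of_one_le_right (by linarith) hR2
  have hL16 : 16 * (d * B) ≤ L := by
    have : 0 ≤ 2 * (2 ^ d * C₀) := by positivity
    linarith
  have hL0 : 0 < L := by linarith
  have hδL : δ = Real.exp (-L) := by
    rw [hL, one_div, Real.log_inv, neg_neg, Real.exp_log hδ]
  -- `2 d B ≤ exp (2 d B)`
  set M : ℝ := 2 * (d * B) with hM
  have hM6 : 6 ≤ M := by rw [hM]; linarith
  have hMexp : M ≤ Real.exp M := by linarith [Real.add_one_le_exp M]
  have hMδ : M * δ ≤ Real.exp (-(3 / 4 * L)) := by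
    rw [hδL]
    calc M * Real.exp (-L) ≤ Real.exp M * Real.exp (-L) :=
          mul_le_mul_of_nonneg_right hMexp (Real.exp_pos _).le
      _ = Real.exp (M + -L) := by rw [Real.exp_add]
      _ ≤ _ := Real.exp_le_exp.2 (by rw [hM]; linarith)
  have hMδ1 : M * δ ≤ 1 / 2 := by
    refine hMδ.trans ?_
    have h1 : Real.exp (-(3 / 4 * L)) ≤ Real.exp (-1) := Real.exp_le_exp.2 (by linarith)
    refine h1.trans ?_
    rw [Real.exp_neg, inv_eq_one_div]
    exact one_div_le_one_div_of_le (by norm_num) (by linarith [Real.add_one_le_exp (1 : ℝ)])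
  -- the matrix `X`
  set X : Matrix (Fin d) (Fin d) ℝ := (g - y) * y⁻¹ with hX
  have hgX : g = (1 + X) * y := by
    rw [hX, Matrix.add_mul, one_mul, Matrix.mul_assoc, Matrix.nonsing_inv_mul _ hyu, mul_one]
    abel
  have hXb : ∀ k l, |X k l| ≤ M * δ / 2 := by
    intro k l
    rw [hX, Matrix.mul_apply]
    calc |∑ r, (g - y) k r * y⁻¹ r l| ≤ ∑ r, |(g - y) k r * y⁻¹ r l| :=
          Finset.abs_sum_le_sum_abs _ _
      _ ≤ ∑ r : Fin d, δ * B := by
          refine Finset.sum_le_sum fun r _ => ?_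
          rw [abs_mul]
          exact mul_le_mul (hgy k r) (hyB' r l) (abs_nonneg _) hδ.le
      _ = M * δ / 2 := by
          rw [Finset.sum_const, Finset.card_univ, Fintype.card_fin, nsmul_eq_mul, hM]
          ring
  set D : Fin d → ℝ := fun k => 1 + X k k with hD
  have hDb : ∀ k, 1 / 2 ≤ D k ∧ D k ≤ 3 / 2 := by
    intro k
    have h1 := abs_le.1 ((hXb k k).trans (by linarith : M * δ / 2 ≤ 1 / 4))
    simp only [hD]
    constructor <;> linarith [h1.1, h1.2]
  have hD0 : ∀ k, D k ≠ 0 := fun k => by linarith [(hDb k).1]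
  set X' : Matrix (Fin d) (Fin d) ℝ := fun k l => if k = l then 0 else X k l / D k with hX'
  have hX'0 : ∀ k, X' k k = 0 := fun k => by simp [hX']
  have hDX : diagonal D * (1 + X') = 1 + X := by
    ext k l
    rw [diagonal_mul, Matrix.add_apply, Matrix.add_apply, Matrix.one_apply]
    by_cases hkl : k = l
    · subst hkl
      rw [if_pos rfl, hX'0]
      simp only [hD]
      ring
    · rw [if_neg hkl]
      simp only [hX', if_neg hkl]
      rw [zero_add, mul_div_cancel₀ _ (hD0 k), zero_add]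
  have hX'b : ∀ k l, |X' k l| ≤ M * δ := by
    intro k l
    simp only [hX']
    by_cases hkl : k = l
    · rw [if_pos hkl, abs_zero]
      positivity
    · have hDp : 0 < D k := by linarith [(hDb k).1]
      rw [if_neg hkl, abs_div, abs_of_pos hDp, div_le_iff₀ hDp]
      have h1 := hXb k l
      have h2 := (hDb k).1
      have h3 : 0 ≤ M * δ := by positivity
      have h4 : M * δ * (1 / 2) ≤ M * δ * D k := mul_le_mul_of_nonneg_left h2 h3
      linarith
  -- the largest entry
  obtain ⟨⟨i, j⟩, -, hmax⟩ := Finset.exists_max_image (Finset.univ : Finset (Fin d × Fin d))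
    (fun p => |X' p.1 p.2|) ⟨(⟨0, hd0⟩, ⟨0, hd0⟩), Finset.mem_univ _⟩
  have hmax' : ∀ k l, |X' k l| ≤ |X' i j| := fun k l => hmax (k, l) (Finset.mem_univ _)
  -- the distance
  have hmX : m ≤ M * |X' i j| := by
    obtain ⟨k, l, hkl⟩ := hdist D
    refine hkl.trans ?_
    have e : g k l - D k * y k l = D k * ∑ r, X' k r * y r l := by
      rw [hgX, ← hDX, Matrix.mul_assoc, diagonal_mul, Matrix.add_mul, one_mul, Matrix.add_apply,
        Matrix.mul_apply]
      ring
    rw [e, abs_mul]
    have h1 : |∑ r, X' k r * y r l| ≤ d * (|X' i j| * B) := by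
      calc |∑ r, X' k r * y r l| ≤ ∑ r, |X' k r * y r l| := Finset.abs_sum_le_sum_abs _ _
        _ ≤ ∑ r : Fin d, |X' i j| * B := by
            refine Finset.sum_le_sum fun r _ => ?_
            rw [abs_mul]
            exact mul_le_mul (hmax' k r) (hyB r l) (abs_nonneg _) (abs_nonneg _)
        _ = _ := by rw [Finset.sum_const, Finset.card_univ, Fintype.card_fin, nsmul_eq_mul]
    have h2 : |D k| ≤ 2 := by
      rw [abs_of_pos (by linarith [(hDb k).1])]
      linarith [(hDb k).2]
    calc |D k| * |∑ r, X' k r * y r l| ≤ 2 * (d * (|X' i j| * B)) :=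
          mul_le_mul h2 h1 (abs_nonneg _) (by norm_num)
      _ = M * |X' i j| := by rw [hM]; ring
  have hXpos : 0 < |X' i j| := by
    by_contra hcon
    have h1 : |X' i j| = 0 := le_antisymm (not_lt.1 hcon) (abs_nonneg _)
    rw [h1, mul_zero] at hmX
    linarith
  have hij : i ≠ j := by
    rintro rfl
    rw [hX'0, abs_zero] at hXpos
    exact lt_irrefl _ hXpos
  set T := -Real.log |X' i j| with hT
  have hexpT : Real.exp (-T) = |X' i j| := by rw [hT, neg_neg, Real.exp_log hXpos]
  have hTL : 3 / 4 * L ≤ T := by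
    have h1 : Real.exp (-T) ≤ Real.exp (-(3 / 4 * L)) := by
      rw [hexpT]
      exact (hX'b i j).trans hMδ
    have := Real.exp_le_exp.1 h1
    linarith
  have hT0 : 0 < T := by linarith
  -- logarithms
  have hlogL : C * R ^ 2 ≤ Real.log L := by
    rw [Real.le_log_iff_exp_le hL0]
    exact hδC
  have hlogL0 : 0 < Real.log L := lt_of_lt_of_le (by positivity) hlogL
  have hlogT : Real.log L / 2 ≤ Real.log T := by
    have h1 : Real.log L - 1 / 2 ≤ Real.log T := by
      have h2 : Real.log (3 / 4 * L) ≤ Real.log T := Real.log_le_log (by positivity) hTL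
      rw [Real.log_mul (by norm_num) hL0.ne'] at h2
      have h3 : -(1 / 2 : ℝ) ≤ Real.log (3 / 4) := by
        rw [Real.le_log_iff_exp_le (by norm_num), Real.exp_neg, inv_eq_one_div]
        have h4 : (4 : ℝ) / 3 ≤ Real.exp (1 / 2) := by linarith [Real.add_one_le_exp (1 / 2 : ℝ)]
        calc 1 / Real.exp (1 / 2) ≤ 1 / (4 / 3) := one_div_le_one_div_of_le (by norm_num) h4
          _ = 3 / 4 := by norm_num
      linarith
    have h2 : 1 ≤ Real.log L := by
      have : 1 ≤ C * R ^ 2 := hC1.trans hCR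
      linarith
    linarith
  have hTC₀ : Real.exp (C₀ * R ^ 2) ≤ T := by
    have h1 : C₀ * R ^ 2 ≤ Real.log T := by
      refine le_trans ?_ hlogT
      have h2 : 2 * C₀ ≤ C := by
        have h3 : C₀ ≤ 2 ^ d * C₀ := le_mul_of_one_le_left (by linarith) h2d
        have : 0 ≤ 16 * (d * B) := by positivity
        linarith
      have h3 : 2 * C₀ * R ^ 2 ≤ C * R ^ 2 := mul_le_mul_of_nonneg_right h2 (by positivity)
      linarith
    rwa [Real.le_log_iff_exp_le hT0] at h1
  -- the determinant of the diagonal part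
  set P := ∏ k, D k with hP
  have hP1 : P ≤ 2 ^ d := by
    have h1 := Finset.prod_le_prod (s := (Finset.univ : Finset (Fin d))) (f := D) (g := fun _ => (2 : ℝ))
      (fun k _ => by linarith [(hDb k).1]) (fun k _ => by linarith [(hDb k).2])
    rwa [Finset.prod_const, Finset.card_univ, Fintype.card_fin] at h1
  have hP2 : (1 / 2) ^ d ≤ P := by
    have h1 := Finset.prod_le_prod (s := (Finset.univ : Finset (Fin d))) (f := fun _ => (1 / 2 : ℝ))
      (g := D) (fun k _ => by norm_num) (fun k _ => (hDb k).1)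
    rwa [Finset.prod_const, Finset.card_univ, Fintype.card_fin] at h1
  have hP0 : 0 < P := lt_of_lt_of_le (by positivity) hP2
  have hτ' : |τ / P| ≤ B' := by
    rw [abs_div, abs_of_pos hP0, div_le_iff₀ hP0, hB']
    have h1 : 1 ≤ 2 ^ d * P := by
      have h2 : (2 : ℝ) ^ d * (1 / 2) ^ d = 1 := by rw [← mul_pow]; norm_num
      calc (1 : ℝ) = 2 ^ d * (1 / 2) ^ d := h2.symm
        _ ≤ 2 ^ d * P := mul_le_mul_of_nonneg_left hP2 (by positivity)
    calc |τ| ≤ B := hτ
      _ = B * 1 := (mul_one B).symm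
      _ ≤ B * (2 ^ d * P) := mul_le_mul_of_nonneg_left h1 (by linarith)
      _ = 2 ^ d * B * P := by ring
  obtain ⟨p, hp0, hpb, hpv⟩ := hcore R y u hR hy (fun k l => (hyB k l).trans hBB')
    (fun k l => (hyB' k l).trans hBB') hu X' T i j hX'0 hij
    (fun k l => by rw [hexpT]; exact hmax' k l) hexpT.symm hTC₀ (τ / P) hτ'
  refine ⟨p, hp0, fun k => (hpb k).trans ?_, ?_⟩
  · -- the size of the point
    have h1 : Real.exp (3 / 4 * T) ^ 4 ≤ (1 / m) ^ 4 := by
      have e1 : Real.exp (3 / 4 * T) ^ 4 = Real.exp T ^ 3 := by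
        rw [← Real.exp_nat_mul, ← Real.exp_nat_mul]
        congr 1
        push_cast
        ring
      have e2 : Real.exp T ≤ M / m := by
        rw [le_div_iff₀ hm]
        calc Real.exp T * m ≤ Real.exp T * (M * |X' i j|) :=
              mul_le_mul_of_nonneg_left hmX (Real.exp_pos _).le
          _ = M * (Real.exp T * Real.exp (-T)) := by rw [hexpT]; ring
          _ = M := by rw [← Real.exp_add, add_neg_cancel, Real.exp_zero, mul_one]
      have e3 : m ≤ δ := by
        obtain ⟨k, l, hkl⟩ := hdist (fun _ => 1)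
        rw [one_mul] at hkl
        exact hkl.trans (hgy k l)
      have e4 : M ^ 3 * m ≤ 1 := by
        have h5 : M ^ 3 ≤ Real.exp M ^ 3 := pow_le_pow_left₀ (by linarith) hMexp 3
        calc M ^ 3 * m ≤ Real.exp M ^ 3 * Real.exp (-L) :=
              mul_le_mul h5 (by rw [← hδL]; exact e3) hm.le (by positivity)
          _ = Real.exp (3 * M - L) := by
              rw [← Real.exp_nat_mul, ← Real.exp_add]
              congr 1
          _ ≤ Real.exp 0 := Real.exp_le_exp.2 (by rw [hM]; linarith)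
          _ = 1 := Real.exp_zero
      rw [e1]
      calc Real.exp T ^ 3 ≤ (M / m) ^ 3 := pow_le_pow_left₀ (Real.exp_pos _).le e2 3
        _ = (M ^ 3 * m) * (1 / m) ^ 4 := by
            field_simp
        _ ≤ 1 * (1 / m) ^ 4 := mul_le_mul_of_nonneg_right e4 (by positivity)
        _ = (1 / m) ^ 4 := one_mul _
    exact le_of_pow_le_pow_left₀ (by norm_num) (by positivity) h1
  · -- the value
    have e1 : FF g (iR p) = P * FF ((1 + X') * y) (iR p) := by
      rw [hgX, ← hDX, Matrix.mul_assoc, FF_diag_mul]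
    have e2 : FF g (iR p) - τ = P * (FF ((1 + X') * y) (iR p) - τ / P) := by
      rw [e1, mul_sub, mul_div_cancel₀ _ hP0.ne']
    rw [e2, abs_mul, abs_of_pos hP0]
    have hlogT0 : 0 < Real.log T := lt_of_lt_of_le (by linarith) hlogT
    calc P * |FF ((1 + X') * y) (iR p) - τ / P| ≤ 2 ^ d * (C₀ * R ^ 2 / Real.log T) :=
          mul_le_mul hP1 hpv (abs_nonneg _) (by positivity)
      _ ≤ 2 ^ d * (C₀ * R ^ 2 / (Real.log L / 2)) := by
          refine mul_le_mul_of_nonneg_left ?_ (by positivity)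
          exact div_le_div_of_nonneg_left (by positivity) (by linarith) hlogT
      _ = 2 * (2 ^ d * C₀) * R ^ 2 / Real.log L := by
          field_simp
      _ ≤ C * R ^ 2 / Real.log L := by
          apply div_le_div_of_nonneg_right _ hlogL0.le
          refine mul_le_mul_of_nonneg_right ?_ (by positivity)
          have : 0 ≤ 16 * (d * B) := by positivity
          linarith

end Pool.Agent.Run7.h245.EI
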