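import Pool.Agent.Run7.h245.EI.Gap

/-!
# Vectors in `LS y` with a prescribed difference of two entries and almost prescribed entries
-/

set_option autoImplicit false
set_option linter.all false

open Matrix H715R2 Finset

namespace Pool.Agent.Run7.h245.EI

variable {d : ℕ}

/-- The direction. -/
noncomputable def tt (i j : Fin d) (ρ : ℝ) (k : Fin d) : ℝ :=
  (if k = j then ρ / 2 else 0) + (if k = i then -ρ / 2 else 0)

theorem tt_sum (i j : Fin d) (ρ : ℝ) : ∑ k, tt i j ρ k = 0 := by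
  unfold tt
  rw [Finset.sum_add_distrib, Finset.sum_ite_eq', Finset.sum_ite_eq']
  simp
  ring

/-- An element of `LS y` with small nonzero difference of the entries. -/
theorem small {y : Matrix (Fin d) (Fin d) ℝ} (hy : y.det ≠ 0) (hd : 3 ≤ d) {R : ℝ} (hR : 1 ≤ R)
    {u : Fin (d - 1) → Fin d → ℝ} (hu : Un y R u) {i j : Fin d} (hij : i ≠ j) {ε : ℝ}
    (hε0 : 0 < ε) (hε1 : ε ≤ 1) :
    ∃ w ∈ LS y, w j ≠ w i ∧ |w j - w i| ≤ ε ∧ ∀ k, |w k| ≤ 7 * (R ^ 2 / ε) := by
  have key : ∀ a b : Fin (d - 1), (∀ k l : ℤ, (k : ℝ) * (u a j - u a i) = l * (u b j - u b i) →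
      k = 0 ∧ l = 0) → |u a j - u a i| ≤ |u b j - u b i| →
      ∃ w ∈ LS y, w j ≠ w i ∧ |w j - w i| ≤ ε ∧ ∀ k, |w k| ≤ 7 * (R ^ 2 / ε) := by
    intro a b hab hle
    set α := u a j - u a i with hα
    set β := u b j - u b i with hβ
    have hβ0 : β ≠ 0 := by
      intro h
      have := (hab 0 1 (by rw [h]; simp)).2
      exact one_ne_zero this
    have hξ : |α / β| ≤ 1 := by
      rw [abs_div]
      exact div_le_one_of_le₀ hle (abs_nonneg _)
    set n : ℕ := ⌈2 * R / ε⌉₊ with hn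
    have hn0 : 0 < n := Nat.ceil_pos.2 (by positivity)
    have hn1 : 2 * R / ε ≤ n := Nat.le_ceil _
    have hn2 : (n : ℝ) < 2 * R / ε + 1 := Nat.ceil_lt_add_one (by positivity)
    obtain ⟨l, k, hk0, hkn, hkl⟩ := Real.exists_int_int_abs_mul_sub_le (α / β) hn0
    have hθ : (k : ℝ) * α - l * β = β * (k * (α / β) - l) := by
      field_simp
    have hβR : |β| ≤ 2 * R := by
      rw [hβ]
      refine (abs_sub _ _).trans ?_
      linarith [hu.bd b j, hu.bd b i]
    have hkr : (0 : ℝ) < k := by exact_mod_cast hk0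
    have hknr : (k : ℝ) ≤ n := by exact_mod_cast hkn
    have hn1' : (0 : ℝ) < (n : ℝ) + 1 := by positivity
    have hlabs : |(l : ℝ)| ≤ n + 1 := by
      have e : (l : ℝ) = k * (α / β) - (k * (α / β) - l) := by ring
      rw [e]
      refine (abs_sub _ _).trans ?_
      have h1 : |(k : ℝ) * (α / β)| ≤ n := by
        rw [abs_mul, abs_of_pos hkr]
        calc (k : ℝ) * |α / β| ≤ k * 1 := mul_le_mul_of_nonneg_left hξ hkr.le
          _ ≤ n := by rw [mul_one]; exact hknr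
      have h2 : (1 : ℝ) / (n + 1) ≤ 1 := by
        rw [div_le_one hn1']
        linarith [Nat.cast_nonneg (α := ℝ) n]
      linarith
    refine ⟨k • u a - l • u b, sub_mem ((LS y).zsmul_mem (hu.mem a) _)
      ((LS y).zsmul_mem (hu.mem b) _), ?_, ?_, ?_⟩
    · intro h
      have h1 : (k : ℝ) * α = l * β := by
        rw [Pi.sub_apply, Pi.sub_apply, Pi.smul_apply, Pi.smul_apply, Pi.smul_apply,
          Pi.smul_apply, zsmul_eq_mul, zsmul_eq_mul, zsmul_eq_mul, zsmul_eq_mul] at h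
        rw [hα, hβ]
        linear_combination h
      exact absurd (hab k l h1).1 hk0.ne'
    · have e : (k • u a - l • u b) j - (k • u a - l • u b) i = (k : ℝ) * α - l * β := by
        rw [Pi.sub_apply, Pi.sub_apply, Pi.smul_apply, Pi.smul_apply, Pi.smul_apply,
          Pi.smul_apply, zsmul_eq_mul, zsmul_eq_mul, zsmul_eq_mul, zsmul_eq_mul, hα, hβ]
        ring
      rw [e, hθ, abs_mul]
      calc |β| * |(k : ℝ) * (α / β) - l| ≤ 2 * R * (1 / (n + 1)) :=
            mul_le_mul hβR hkl (abs_nonneg _) (by positivity)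
        _ ≤ ε := by
            rw [mul_one_div, div_le_iff₀ hn1']
            rw [div_le_iff₀ hε0] at hn1
            nlinarith
    · intro x
      have e : (k • u a - l • u b) x = (k : ℝ) * u a x - l * u b x := by
        rw [Pi.sub_apply, Pi.smul_apply, Pi.smul_apply, zsmul_eq_mul, zsmul_eq_mul]
      rw [e]
      refine (abs_sub _ _).trans ?_
      rw [abs_mul, abs_mul, abs_of_pos hkr]
      have h1 : (k : ℝ) * |u a x| ≤ n * R := mul_le_mul hknr (hu.bd a x) (abs_nonneg _) (by positivity)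
      have h2 : |(l : ℝ)| * |u b x| ≤ (n + 1) * R :=
        mul_le_mul hlabs (hu.bd b x) (abs_nonneg _) (by positivity)
      have h3 : 1 ≤ R / ε := by
        rw [one_le_div hε0]; linarith
      have h4 : R ^ 2 / ε = R * (R / ε) := by ring
      have h5 : 2 * R / ε = 2 * (R / ε) := by ring
      rw [h5] at hn2
      rw [h4]
      nlinarith
  obtain ⟨a, b, hab⟩ := exists_pair hy hd (by linarith) hu hij
  rcases le_total |u a j - u a i| |u b j - u b i| with h | h
  · exact key a b hab h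
  · exact key b a (fun k l hkl => (hab l k hkl.symm).symm) h

theorem tune {y : Matrix (Fin d) (Fin d) ℝ} (hy : y.det ≠ 0) (hd : 3 ≤ d) {R : ℝ} (hR : 1 ≤ R)
    {u : Fin (d - 1) → Fin d → ℝ} (hu : Un y R u) {i j : Fin d} (hij : i ≠ j) {ε : ℝ}
    (hε0 : 0 < ε) (hε1 : ε ≤ 1) (ρ₀ : ℝ) :
    ∃ v ∈ LS y, |(v j - v i) - ρ₀| ≤ ε ∧
      ∀ k, |v k - tt i j ρ₀ k| ≤ Real.exp ((10 * (d : ℝ) ^ 2 + 20) * (R ^ 2 / ε)) := by
  obtain ⟨w, hw, hne, hwε, hwN⟩ := small hy hd hR hu hij hε0 hε1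
  obtain ⟨v₀, hv₀, hv₀t⟩ := round_u hy (by omega) (by linarith) hu (tt_sum i j ρ₀)
  set θ := w j - w i with hθ
  have hθ0 : θ ≠ 0 := sub_ne_zero.2 hne
  set Z := R ^ 2 / ε with hZ
  have hd1 : (1 : ℝ) ≤ d := by exact_mod_cast (by omega : 1 ≤ d)
  have hRZ : R ≤ Z := by
    rw [hZ, le_div_iff₀ hε0]
    nlinarith
  have hZ1 : 1 ≤ Z := hR.trans hRZ
  have hgap : Real.exp (-((d : ℝ) ^ 2 + 1) * (7 * Z + 1)) ≤ |θ| := gap hy hw hwN hne
  set ρ := ρ₀ - (v₀ j - v₀ i) with hρ
  have htt : tt i j ρ₀ j - tt i j ρ₀ i = ρ₀ := by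
    unfold tt
    rw [if_pos rfl, if_neg hij.symm, if_neg hij, if_pos rfl]
    ring
  have hρb : |ρ| ≤ 2 * (d * R) := by
    have e : ρ = -(v₀ j - tt i j ρ₀ j) + (v₀ i - tt i j ρ₀ i) := by
      rw [hρ]
      linarith
    rw [e]
    refine (abs_add_le _ _).trans ?_
    rw [abs_neg]
    linarith [hv₀t j, hv₀t i]
  set m : ℤ := round (ρ / θ) with hm
  have hm1 : |ρ / θ - m| ≤ 1 / 2 := abs_sub_round _
  refine ⟨v₀ + m • w, add_mem hv₀ ((LS y).zsmul_mem hw _), ?_, fun k => ?_⟩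
  · have e : (v₀ + m • w) j - (v₀ + m • w) i - ρ₀ = -(θ * (ρ / θ - m)) := by
      rw [Pi.add_apply, Pi.add_apply, Pi.smul_apply, Pi.smul_apply, zsmul_eq_mul, zsmul_eq_mul]
      have : θ * (ρ / θ - m) = ρ - θ * m := by field_simp
      rw [this, hρ, hθ]
      ring
    rw [e, abs_neg, abs_mul]
    calc |θ| * |ρ / θ - m| ≤ |θ| * (1 / 2) := mul_le_mul_of_nonneg_left hm1 (abs_nonneg _)
      _ ≤ ε := by linarith [abs_nonneg θ]
  · have e : (v₀ + m • w) k - tt i j ρ₀ k = (v₀ k - tt i j ρ₀ k) + m * w k := by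
      rw [Pi.add_apply, Pi.smul_apply, zsmul_eq_mul]
      ring
    rw [e]
    set E := Real.exp (((d : ℝ) ^ 2 + 1) * (7 * Z + 1)) with hE
    have hE1 : 1 ≤ E := Real.one_le_exp (by positivity)
    have hθE : |θ|⁻¹ ≤ E := by
      rw [hE, inv_le_comm₀ (abs_pos.2 hθ0) (Real.exp_pos _), ← Real.exp_neg]
      have : -(((d : ℝ) ^ 2 + 1) * (7 * Z + 1)) = -((d : ℝ) ^ 2 + 1) * (7 * Z + 1) := by ring
      rw [this]
      exact hgap
    have hmabs : |(m : ℝ)| ≤ 2 * (d * Z) * E + 1 := by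
      have e1 : (m : ℝ) = ρ / θ - (ρ / θ - m) := by ring
      rw [e1]
      refine (abs_sub _ _).trans ?_
      have h1 : |ρ / θ| ≤ 2 * (d * Z) * E := by
        rw [abs_div, div_eq_mul_inv]
        refine mul_le_mul (hρb.trans ?_) hθE (by positivity) (by positivity)
        nlinarith
      linarith
    have h2 : |v₀ k - tt i j ρ₀ k + m * w k| ≤ d * Z + (2 * (d * Z) * E + 1) * (7 * Z) := by
      refine (abs_add_le _ _).trans (add_le_add ((hv₀t k).trans (by nlinarith)) ?_)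
      rw [abs_mul]
      exact mul_le_mul hmabs (hwN k) (abs_nonneg _) (by positivity)
    refine h2.trans ?_
    -- everything in terms of exponentials
    have hx : ∀ x : ℝ, x ≤ Real.exp x := fun x => by linarith [Real.add_one_le_exp x]
    have a1 : (d : ℝ) * Z ≤ Real.exp (d * Z) := hx _
    have a2 : 2 * (d * Z) ≤ Real.exp (2 * (d * Z)) := hx _
    have a3 : 7 * Z ≤ Real.exp (7 * Z) := hx _
    have a4 : E ≤ Real.exp (8 * ((d : ℝ) ^ 2 + 1) * Z) := by
      rw [hE]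
      refine Real.exp_le_exp.2 ?_
      nlinarith [sq_nonneg (d : ℝ)]
    have a5 : (2 * (d * Z) * E + 1) * (7 * Z) ≤
        2 * Real.exp ((2 * d + 8 * ((d : ℝ) ^ 2 + 1) + 7) * Z) := by
      have b1 : 2 * (d * Z) * E ≤ Real.exp (2 * (d * Z)) * Real.exp (8 * ((d : ℝ) ^ 2 + 1) * Z) :=
        mul_le_mul a2 a4 (by positivity) (by positivity)
      have b2 : (1 : ℝ) ≤ Real.exp (2 * (d * Z)) * Real.exp (8 * ((d : ℝ) ^ 2 + 1) * Z) := by
        rw [← Real.exp_add]
        exact Real.one_le_exp (by positivity)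
      calc (2 * (d * Z) * E + 1) * (7 * Z)
          ≤ (2 * (Real.exp (2 * (d * Z)) * Real.exp (8 * ((d : ℝ) ^ 2 + 1) * Z))) *
            Real.exp (7 * Z) :=
            mul_le_mul (by linarith) a3 (by positivity) (by positivity)
        _ = 2 * Real.exp ((2 * d + 8 * ((d : ℝ) ^ 2 + 1) + 7) * Z) := by
            rw [← Real.exp_add, mul_assoc, ← Real.exp_add]
            congr 2
            ring
    have a6 : Real.exp (d * Z) ≤ Real.exp ((2 * d + 8 * ((d : ℝ) ^ 2 + 1) + 7) * Z) := by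
      refine Real.exp_le_exp.2 ?_
      nlinarith [sq_nonneg (d : ℝ)]
    have a7 : (3 : ℝ) ≤ Real.exp (2 * Z) := by
      have := Real.add_one_le_exp (2 * Z)
      linarith
    calc d * Z + (2 * (d * Z) * E + 1) * (7 * Z)
        ≤ 3 * Real.exp ((2 * d + 8 * ((d : ℝ) ^ 2 + 1) + 7) * Z) := by linarith
      _ ≤ Real.exp (2 * Z) * Real.exp ((2 * d + 8 * ((d : ℝ) ^ 2 + 1) + 7) * Z) :=
          mul_le_mul_of_nonneg_right a7 (Real.exp_pos _).le
      _ = Real.exp ((2 * d + 8 * ((d : ℝ) ^ 2 + 1) + 9) * Z) := by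
          rw [← Real.exp_add]
          congr 1
          ring
      _ ≤ _ := by
          refine Real.exp_le_exp.2 (mul_le_mul_of_nonneg_right ?_ (by linarith))
          nlinarith

end Pool.Agent.Run7.h245.EI
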